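import Pool.Agent.Work.MP_9fb148_an.Gap

set_option autoImplicit false

open Matrix
open scoped Kronecker

namespace Pool.Agent.Work.MP_9fb148_an

section prod
variable {ι : Type} [Fintype ι] [DecidableEq ι]

lemma prodW_anti (d : ℕ) : ∀ (w : Fin d → Matrix ι ι ℂ) (Z : Matrix ι ι ℂ) (k : Fin d)
    (_ : Z * w k = -(w k * Z)) (_ : ∀ j, j ≠ k → Z * w j = w j * Z),
    Z * prodW d w = -(prodW d w * Z) := by
  induction d with
  | zero => intro w Z k; exact k.elim0
  | succ d ih =>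
    intro w Z k hk h
    simp only [prodW]
    refine Fin.cases ?_ ?_ k hk h
    · intro hk h
      have hP : Z * prodW d (fun j => w j.succ) = prodW d (fun j => w j.succ) * Z :=
        prodW_comm d _ Z (fun j => h j.succ (Fin.succ_ne_zero j))
      rw [← mul_assoc, hk, neg_mul, mul_assoc, hP, mul_assoc]
    · intro k' hk h
      have hP := ih (fun j => w j.succ) Z k' hk
        (fun j hj => h j.succ (fun h' => hj (Fin.succ_injective _ h')))
      rw [← mul_assoc, h 0 (Fin.succ_ne_zero k').symm, mul_assoc, hP, mul_neg, mul_assoc]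

lemma prodW_sq (d : ℕ) : ∀ (w : Fin d → Matrix ι ι ℂ) (_ : ∀ j, w j * w j = 1)
    (_ : ∀ j k, w j * w k = w k * w j), prodW d w * prodW d w = 1 := by
  induction d with
  | zero => intro w _ _; simp [prodW]
  | succ d ih =>
    intro w h1 h2
    simp only [prodW]
    have hP : w 0 * prodW d (fun j => w j.succ) = prodW d (fun j => w j.succ) * w 0 :=
      prodW_comm d _ _ (fun j => h2 0 j.succ)
    have e : prodW d (fun j => w j.succ) * prodW d (fun j => w j.succ) = 1 :=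
      ih _ (fun j => h1 _) (fun j k => h2 _ _)
    calc w 0 * prodW d (fun j => w j.succ) * (w 0 * prodW d (fun j => w j.succ))
        = w 0 * (prodW d (fun j => w j.succ) * w 0) * prodW d (fun j => w j.succ) := by
          simp only [mul_assoc]
      _ = (w 0 * w 0) * (prodW d (fun j => w j.succ) * prodW d (fun j => w j.succ)) := by
          rw [← hP]; simp only [mul_assoc]
      _ = 1 := by rw [h1, e, one_mul]

end prod

section setup

variable (n d m : ℕ) (A : Fin d → Matrix (Fin n) (Fin n) ℂ) (γ : Fin d → Matrix (Fin m) (Fin m) ℂ)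

def s1 : Matrix (Fin 2) (Fin 2) ℂ := !![0, 1; 1, 0]
def s2 : Matrix (Fin 2) (Fin 2) ℂ := !![0, 1; -1, 0]

lemma s1_s1 : s1 * s1 = 1 := by
  ext i j; fin_cases i <;> fin_cases j <;> simp [s1]
lemma s2_s2 : s2 * s2 = -1 := by
  ext i j; fin_cases i <;> fin_cases j <;> simp [s2]
lemma s1_s2 : s1 * s2 = -(s2 * s1) := by
  ext i j; fin_cases i <;> fin_cases j <;> simp [s1, s2]
lemma s1_H : s1ᴴ = s1 := by
  ext i j; fin_cases i <;> fin_cases j <;> simp [s1]
lemma s2_H : s2ᴴ = -s2 := by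
  ext i j; fin_cases i <;> fin_cases j <;> simp [s2]

abbrev I (n m : ℕ) : Type := (Fin n × Fin m) × (Fin 2 × Fin m)

/-- the Clifford matrices on the doubled space -/
def GG (j : Fin d) : Matrix (I n m) (I n m) ℂ :=
  ((1 : Matrix (Fin n) (Fin n) ℂ) ⊗ₖ γ j) ⊗ₖ (s1 ⊗ₖ (1 : Matrix (Fin m) (Fin m) ℂ))

def FF (j : Fin d) : Matrix (I n m) (I n m) ℂ :=
  ((1 : Matrix (Fin n) (Fin n) ℂ) ⊗ₖ (1 : Matrix (Fin m) (Fin m) ℂ)) ⊗ₖ (s2 ⊗ₖ γ j)

def AA (j : Fin d) : Matrix (I n m) (I n m) ℂ :=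
  (A j ⊗ₖ (1 : Matrix (Fin m) (Fin m) ℂ)) ⊗ₖ
    ((1 : Matrix (Fin 2) (Fin 2) ℂ) ⊗ₖ (1 : Matrix (Fin m) (Fin m) ℂ))

lemma AA_GG (j k : Fin d) : AA n d m A j * GG n d m γ k = GG n d m γ k * AA n d m A j := by
  unfold AA GG
  simp only [← mul_kronecker_mul, mul_one, one_mul]

lemma AA_FF (j k : Fin d) : AA n d m A j * FF n d m γ k = FF n d m γ k * AA n d m A j := by
  unfold AA FF
  simp only [← mul_kronecker_mul, mul_one, one_mul]

lemma GG_FF (j k : Fin d) : GG n d m γ j * FF n d m γ k = -(FF n d m γ k * GG n d m γ j) := by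
  unfold GG FF
  simp only [← mul_kronecker_mul, mul_one, one_mul, s1_s2, neg_kron, kron_neg]

variable (hA : ∀ j, (A j).IsHermitian) (hγ : ∀ j, (γ j).IsHermitian) (hγ2 : ∀ j, γ j * γ j = 1)
  (hγγ : ∀ j k, j ≠ k → γ j * γ k = -(γ k * γ j))

include hγ2 in
lemma GG_sq (j : Fin d) : GG n d m γ j * GG n d m γ j = 1 := by
  unfold GG
  simp only [← mul_kronecker_mul, mul_one, s1_s1, hγ2, one_kronecker_one]

include hγ2 in
lemma FF_sq (j : Fin d) : FF n d m γ j * FF n d m γ j = -1 := by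
  unfold FF
  simp only [← mul_kronecker_mul, mul_one, s2_s2, hγ2, neg_kron, kron_neg, one_kronecker_one]

include hγγ in
lemma GG_GG (j k : Fin d) (h : j ≠ k) :
    GG n d m γ j * GG n d m γ k = -(GG n d m γ k * GG n d m γ j) := by
  unfold GG
  simp only [← mul_kronecker_mul, mul_one, hγγ j k h, neg_kron, kron_neg]

include hγγ in
lemma FF_FF (j k : Fin d) (h : j ≠ k) :
    FF n d m γ j * FF n d m γ k = -(FF n d m γ k * FF n d m γ j) := by
  unfold FF
  simp only [← mul_kronecker_mul, mul_one, hγγ j k h, kron_neg]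

include hγ in
lemma GG_H (j : Fin d) : (GG n d m γ j)ᴴ = GG n d m γ j := by
  unfold GG
  simp only [conjTranspose_kronecker, conjTranspose_one, s1_H]
  rw [(hγ j).eq]

include hγ in
lemma FF_H (j : Fin d) : (FF n d m γ j)ᴴ = -FF n d m γ j := by
  unfold FF
  simp only [conjTranspose_kronecker, conjTranspose_one, s2_H]
  rw [(hγ j).eq, neg_kron, kron_neg]

include hA in
lemma AA_H (j : Fin d) : (AA n d m A j)ᴴ = AA n d m A j := by
  unfold AA
  simp only [conjTranspose_kronecker, conjTranspose_one]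
  rw [(hA j).eq]

def WW (j : Fin d) : Matrix (I n m) (I n m) ℂ := GG n d m γ j * FF n d m γ j

include hγγ in
lemma GG_WW (j k : Fin d) (h : k ≠ j) : GG n d m γ j * WW n d m γ k = WW n d m γ k * GG n d m γ j :=
  (anti_pair (GG_GG n d m γ hγγ k j h) (anti_symm (GG_FF n d m γ j k))).symm

include hγγ in
lemma FF_WW (j k : Fin d) (h : k ≠ j) : FF n d m γ j * WW n d m γ k = WW n d m γ k * FF n d m γ j :=
  (anti_pair (GG_FF n d m γ k j) (FF_FF n d m γ hγγ k j h)).symm

lemma GG_WW' (j : Fin d) : GG n d m γ j * WW n d m γ j = -(WW n d m γ j * GG n d m γ j) := by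
  unfold WW
  rw [mul_assoc (GG n d m γ j) (FF n d m γ j), anti_symm (GG_FF n d m γ j j), mul_neg, neg_neg]

lemma FF_WW' (j : Fin d) : FF n d m γ j * WW n d m γ j = -(WW n d m γ j * FF n d m γ j) := by
  unfold WW
  rw [← mul_assoc (FF n d m γ j), anti_symm (GG_FF n d m γ j j), neg_mul]

include hγ2 in
lemma WW_sq (j : Fin d) : WW n d m γ j * WW n d m γ j = 1 := by
  have e : WW n d m γ j * WW n d m γ j
      = GG n d m γ j * (FF n d m γ j * GG n d m γ j) * FF n d m γ j := by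
    unfold WW; simp only [mul_assoc]
  rw [e, anti_symm (GG_FF n d m γ j j), mul_neg, neg_mul, ← mul_assoc (GG n d m γ j),
    GG_sq n d m γ hγ2, one_mul, FF_sq n d m γ hγ2, neg_neg]

include hγγ in
lemma WW_WW (j k : Fin d) : WW n d m γ j * WW n d m γ k = WW n d m γ k * WW n d m γ j := by
  by_cases h : j = k
  · rw [h]
  · exact (comm_pair (GG_WW n d m γ hγγ k j h).symm (FF_WW n d m γ hγγ k j h).symm)

def BB : Matrix (I n m) (I n m) ℂ := ∑ j, AA n d m A j * GG n d m γ j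

noncomputable def dat (hn : 0 < n) (hm : 0 < m) : Dat d (I n m) where
  Q := 1
  τ := prodW d (WW n d m γ)
  B := BB n d m A γ
  G := GG n d m γ
  F := FF n d m γ
  hQ := conjTranspose_one
  hQQ := one_mul 1
  hB := by
    unfold BB
    rw [conjTranspose_sum]
    apply Finset.sum_congr rfl
    intro j _
    rw [conjTranspose_mul, AA_H n d m A hA, GG_H n d m γ hγ, AA_GG]
  hG := GG_H n d m γ hγ
  hF := FF_H n d m γ hγ
  hGG := GG_sq n d m γ hγ2
  hFF := FF_sq n d m γ hγ2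
  hGG' := GG_GG n d m γ hγγ
  hFF' := FF_FF n d m γ hγγ
  hGF := GG_FF n d m γ
  hQG := fun j => by rw [one_mul, mul_one]
  hQF := fun j => by rw [one_mul, mul_one]
  hQτ := by rw [one_mul, mul_one]
  hQB := by rw [one_mul, mul_one]
  hτG := fun j => anti_symm (prodW_anti d _ _ j (GG_WW' n d m γ j)
    (fun k hk => GG_WW n d m γ hγγ j k hk))
  hτF := fun j => anti_symm (prodW_anti d _ _ j (FF_WW' n d m γ j)
    (fun k hk => FF_WW n d m γ hγγ j k hk))
  hτB := by
    unfold BB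
    rw [Finset.mul_sum, Finset.sum_mul, ← Finset.sum_neg_distrib]
    apply Finset.sum_congr rfl
    intro j _
    have h1 := prodW_anti d _ _ j (GG_WW' n d m γ j) (fun k hk => GG_WW n d m γ hγγ j k hk)
    have h2 : AA n d m A j * prodW d (WW n d m γ) = prodW d (WW n d m γ) * AA n d m A j :=
      prodW_comm d _ _ (fun k => comm_pair (AA_GG n d m A γ j k) (AA_FF n d m A γ j k))
    rw [← mul_assoc, ← h2, mul_assoc, anti_symm h1, mul_neg, mul_assoc]
  hFB := fun k => by
    unfold BB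
    rw [Finset.mul_sum, Finset.sum_mul, ← Finset.sum_neg_distrib]
    apply Finset.sum_congr rfl
    intro j _
    rw [← mul_assoc, ← AA_FF, mul_assoc, anti_symm (GG_FF n d m γ j k), mul_neg, mul_assoc]
  htr := by
    have e : (fun j => GG n d m γ j * FF n d m γ j) = WW n d m γ := rfl
    rw [e, one_mul, prodW_sq d _ (WW_sq n d m γ hγ2) (WW_WW n d m γ hγγ), trace_one]
    have : Nonempty (Fin n) := ⟨⟨0, hn⟩⟩
    have : Nonempty (Fin m) := ⟨⟨0, hm⟩⟩
    exact Nat.cast_ne_zero.2 Fintype.card_ne_zero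

/-- the spectral localizer -/
def loc (x : Fin d → ℝ) : Matrix (Fin n × Fin m) (Fin n × Fin m) ℂ :=
  ∑ j : Fin d, (A j - ((x j : ℂ)) • (1 : Matrix (Fin n) (Fin n) ℂ)) ⊗ₖ (γ j)

lemma BB_eq (x : Fin d → ℝ) :
    BB n d m A γ - ∑ j, (x j : ℂ) • GG n d m γ j
      = loc n d m A γ x ⊗ₖ (s1 ⊗ₖ (1 : Matrix (Fin m) (Fin m) ℂ)) := by
  unfold BB loc
  rw [sum_kron, ← Finset.sum_sub_distrib]
  apply Finset.sum_congr rfl
  intro j _
  unfold AA GG
  simp only [← mul_kronecker_mul, mul_one, one_mul, sub_kron, smul_kronecker]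

lemma nsq_smul {κ : Type} [Fintype κ] (c : ℂ) (v : κ → ℂ) :
    nsq (c • v) = Complex.normSq c * nsq v := by
  unfold nsq
  rw [Finset.mul_sum]
  apply Finset.sum_congr rfl
  intro i _
  simp [Complex.normSq_mul]

lemma continuous_nsq {κ : Type} [Fintype κ] : Continuous (nsq : (κ → ℂ) → ℝ) := by
  unfold nsq
  exact continuous_finsetSum _ fun i _ => Complex.continuous_normSq.comp (continuous_apply i)

/-- sum of the Clifford matrices with real coefficients -/
def cl (x : Fin d → ℝ) : Matrix (Fin n × Fin m) (Fin n × Fin m) ℂ :=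
  ∑ j : Fin d, (x j : ℂ) • ((1 : Matrix (Fin n) (Fin n) ℂ) ⊗ₖ (γ j))

lemma loc_eq (x : Fin d → ℝ) : loc n d m A γ x = loc n d m A γ 0 - cl n d m γ x := by
  unfold loc cl
  rw [← Finset.sum_sub_distrib]
  apply Finset.sum_congr rfl
  intro j _
  simp [sub_kron, smul_kronecker]

include hγ in
lemma cl_H (x : Fin d → ℝ) : (cl n d m γ x)ᴴ = cl n d m γ x := by
  unfold cl
  rw [conjTranspose_sum]
  apply Finset.sum_congr rfl
  intro j _
  rw [conjTranspose_smul, conjTranspose_kronecker, conjTranspose_one, (hγ j).eq]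
  simp

include hγ2 hγγ in
lemma cl_sq (x : Fin d → ℝ) :
    cl n d m γ x * cl n d m γ x = ((∑ j, x j ^ 2 : ℝ) : ℂ) • 1 := by
  have h1 : cl n d m γ x * cl n d m γ x
      = ∑ j, ∑ k, ((x j : ℂ) * (x k : ℂ)) • ((1 : Matrix (Fin n) (Fin n) ℂ) ⊗ₖ (γ j * γ k)) := by
    unfold cl
    rw [Finset.sum_mul]
    apply Finset.sum_congr rfl
    intro j _
    rw [Finset.mul_sum]
    apply Finset.sum_congr rfl
    intro k _
    rw [smul_mul_smul_comm, ← mul_kronecker_mul, one_mul]
  have h2 : cl n d m γ x * cl n d m γ x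
      = ∑ j, ∑ k, ((x j : ℂ) * (x k : ℂ)) • ((1 : Matrix (Fin n) (Fin n) ℂ) ⊗ₖ (γ k * γ j)) := by
    rw [h1, Finset.sum_comm]
    apply Finset.sum_congr rfl
    intro j _
    apply Finset.sum_congr rfl
    intro k _
    rw [mul_comm (x k : ℂ)]
  have h3 : (2 : ℂ) • (cl n d m γ x * cl n d m γ x)
      = (2 : ℂ) • (((∑ j, x j ^ 2 : ℝ) : ℂ) • (1 : Matrix (Fin n × Fin m) (Fin n × Fin m) ℂ)) := by
    have e : (2 : ℂ) • (cl n d m γ x * cl n d m γ x)
        = cl n d m γ x * cl n d m γ x + cl n d m γ x * cl n d m γ x := by rw [two_smul]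
    rw [e]
    nth_rw 1 [h1]
    rw [h2, ← Finset.sum_add_distrib]
    push_cast
    rw [Finset.sum_smul, Finset.smul_sum]
    apply Finset.sum_congr rfl
    intro j _
    rw [← Finset.sum_add_distrib, Finset.sum_eq_single j]
    · rw [hγ2, one_kronecker_one, ← two_smul ℂ, sq]
    · intro k _ hk
      rw [← smul_add, ← kronecker_add, hγγ j k (Ne.symm hk), neg_add_cancel, kronecker_zero,
        smul_zero]
    · intro h; exact absurd (Finset.mem_univ j) h
  have h4 := congrArg (fun M => (1 / 2 : ℂ) • M) h3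
  simpa [smul_smul] using h4

include hγ hγ2 hγγ in
lemma nsq_cl (x : Fin d → ℝ) (v : Fin n × Fin m → ℂ) :
    nsq (cl n d m γ x *ᵥ v) = (∑ j, x j ^ 2) * nsq v := by
  rw [nsq_mulVec, cl_H n d m γ hγ, cl_sq n d m γ hγ2 hγγ, q_smul, q_one]

include hγ hγ2 hγγ in
lemma exists_gap (hn : 0 < n) (hm : 0 < m)
    (h : ∀ x : Fin d → ℝ, (loc n d m A γ x).det ≠ 0) :
    ∃ δ : ℝ, 0 < δ ∧ ∀ (x : Fin d → ℝ) (v : Fin n × Fin m → ℂ),
      δ * nsq v ≤ nsq (loc n d m A γ x *ᵥ v) := by
  obtain ⟨β, hβ, hb⟩ := exists_bound (loc n d m A γ 0)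
  -- compact set
  let S : Set ((Fin d → ℝ) × (Fin n × Fin m → ℂ)) :=
    {p | ∑ j, p.1 j ^ 2 ≤ 2 * β + 2 ∧ nsq p.2 = 1}
  have hclosed : IsClosed S := by
    have hS : S = {p | ∑ j, p.1 j ^ 2 ≤ 2 * β + 2} ∩ {p | nsq p.2 = 1} := rfl
    rw [hS]
    apply IsClosed.inter
    · apply isClosed_le
      · exact continuous_finsetSum _ fun j _ =>
          (((continuous_apply j).comp continuous_fst).pow 2)
      · exact continuous_const
    · exact isClosed_eq (continuous_nsq.comp continuous_snd) continuous_const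
  have hbdd : Bornology.IsBounded S := by
    have hsub : S ⊆ (Metric.closedBall (0 : Fin d → ℝ) (2 * β + 2)) ×ˢ
        (Metric.closedBall (0 : Fin n × Fin m → ℂ) 1) := by
      rintro ⟨x, v⟩ ⟨h1, h2⟩
      simp only at h1 h2
      refine ⟨?_, ?_⟩
      · rw [mem_closedBall_zero_iff, pi_norm_le_iff_of_nonneg (by positivity)]
        intro j
        have : x j ^ 2 ≤ 2 * β + 2 :=
          (Finset.single_le_sum (f := fun j => x j ^ 2) (fun i _ => sq_nonneg _)
            (Finset.mem_univ j)).trans h1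
        rw [Real.norm_eq_abs]
        have h3 : |x j| ^ 2 ≤ 2 * β + 2 := by rwa [sq_abs]
        nlinarith [abs_nonneg (x j)]
      · rw [mem_closedBall_zero_iff, pi_norm_le_iff_of_nonneg (by norm_num)]
        intro i
        have h3 : Complex.normSq (v i) ≤ 1 := by
          rw [← h2]
          exact Finset.single_le_sum (f := fun i => Complex.normSq (v i))
            (fun i _ => Complex.normSq_nonneg _) (Finset.mem_univ i)
        rw [Complex.normSq_eq_norm_sq] at h3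
        nlinarith [norm_nonneg (v i)]
    exact (Metric.isBounded_closedBall.prod Metric.isBounded_closedBall).subset hsub
  have hcomp : IsCompact S := Metric.isCompact_of_isClosed_isBounded hclosed hbdd
  have hne : S.Nonempty := by
    refine ⟨(0, Pi.single (⟨0, hn⟩, ⟨0, hm⟩) 1), ?_, ?_⟩
    · simp; positivity
    · simp only [nsq]
      rw [Finset.sum_eq_single ((⟨0, hn⟩, ⟨0, hm⟩) : Fin n × Fin m)]
      · simp
      · intro b _ hb; simp [hb]
      · intro h; exact absurd (Finset.mem_univ _) h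
  have hcont : Continuous fun p : (Fin d → ℝ) × (Fin n × Fin m → ℂ) =>
      nsq (loc n d m A γ p.1 *ᵥ p.2) := by
    apply continuous_nsq.comp
    apply Continuous.matrix_mulVec _ continuous_snd
    unfold loc
    apply continuous_finsetSum
    intro j _
    apply continuous_matrix
    intro a b
    simp only [kroneckerMap_apply, Matrix.sub_apply, Matrix.smul_apply, smul_eq_mul]
    have hc : Continuous fun p : (Fin d → ℝ) × (Fin n × Fin m → ℂ) => ((p.1 j : ℝ) : ℂ) :=
      Complex.continuous_ofReal.comp ((continuous_apply j).comp continuous_fst)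
    exact (continuous_const.sub (hc.mul continuous_const)).mul continuous_const
  obtain ⟨p, hpS, hpmin⟩ := hcomp.exists_isMinOn hne hcont.continuousOn
  set δ₀ := nsq (loc n d m A γ p.1 *ᵥ p.2) with hδ₀
  have hδ₀pos : 0 < δ₀ := by
    rcases (nsq_nonneg (loc n d m A γ p.1 *ᵥ p.2)).lt_or_eq with h1 | h1
    · exact h1
    · exfalso
      have h2 := nsq_eq_zero h1.symm
      have h3 : p.2 ≠ 0 := by
        intro h4
        have h5 := hpS.2
        rw [h4] at h5
        simp [nsq] at h5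
      exact h p.1 (exists_mulVec_eq_zero_iff.1 ⟨p.2, h3, h2⟩)
  refine ⟨min δ₀ 1, lt_min hδ₀pos one_pos, ?_⟩
  intro x v
  have hvn := nsq_nonneg v
  by_cases hx : ∑ j, x j ^ 2 ≤ 2 * β + 2
  · rcases hvn.lt_or_eq with hv | hv
    · set c : ℂ := (((Real.sqrt (nsq v))⁻¹ : ℝ) : ℂ) with hc
      have hcn : Complex.normSq c = (nsq v)⁻¹ := by
        rw [hc, Complex.normSq_ofReal, ← mul_inv, Real.mul_self_sqrt hvn]
      have hmem : (x, c • v) ∈ S := by
        refine ⟨hx, ?_⟩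
        show nsq (c • v) = 1
        rw [nsq_smul, hcn, inv_mul_cancel₀ hv.ne']
      have h1 := (isMinOn_iff.1 hpmin) (x, c • v) hmem
      rw [← hδ₀] at h1
      simp only [mulVec_smul, nsq_smul, hcn] at h1
      have h2 : δ₀ * nsq v ≤ nsq (loc n d m A γ x *ᵥ v) := by
        rw [inv_mul_eq_div, le_div_iff₀ hv] at h1
        exact h1
      refine le_trans ?_ h2
      exact mul_le_mul_of_nonneg_right (min_le_left _ _) hvn
    · rw [← hv, mul_zero]; exact nsq_nonneg _
  · push Not at hx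
    have h1 := nsq_cl n d m γ hγ hγ2 hγγ x v
    have h2 : cl n d m γ x *ᵥ v = loc n d m A γ 0 *ᵥ v + -(loc n d m A γ x *ᵥ v) := by
      rw [loc_eq n d m A γ x, sub_mulVec]; abel
    have h3 : nsq (-(loc n d m A γ x *ᵥ v)) = nsq (loc n d m A γ x *ᵥ v) := by simp [nsq]
    have h4 := nsq_add_le (loc n d m A γ 0 *ᵥ v) (-(loc n d m A γ x *ᵥ v))
    rw [← h2, h1, h3] at h4
    have h5 := hb v
    have h6 : (2 * β + 2) * nsq v ≤ (∑ j, x j ^ 2) * nsq v :=
      mul_le_mul_of_nonneg_right hx.le hvn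
    have h7 : nsq v ≤ nsq (loc n d m A γ x *ᵥ v) := by linarith
    refine le_trans ?_ h7
    calc min δ₀ 1 * nsq v ≤ 1 * nsq v := mul_le_mul_of_nonneg_right (min_le_right _ _) hvn
      _ = nsq v := one_mul _

include hA hγ hγ2 hγγ in
theorem main (hn : 0 < n) (hm : 0 < m) : ∃ x : Fin d → ℝ, (loc n d m A γ x).det = 0 := by
  by_contra hcon
  push Not at hcon
  obtain ⟨δ, hδ, hg⟩ := exists_gap n d m A γ hγ hγ2 hγγ hn hm hcon
  refine no_gap d (I n m) (dat n d m A γ hA hγ hγ2 hγγ hn hm) δ hδ ?_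
  intro x v _
  show δ * nsq v ≤ nsq ((BB n d m A γ - ∑ j, (x j : ℂ) • GG n d m γ j) *ᵥ v)
  have hiso : (((1 : Matrix (Fin n × Fin m) (Fin n × Fin m) ℂ)) ⊗ₖ
      (s1 ⊗ₖ (1 : Matrix (Fin m) (Fin m) ℂ)))ᴴ * ((1 : Matrix (Fin n × Fin m) (Fin n × Fin m) ℂ) ⊗ₖ
      (s1 ⊗ₖ (1 : Matrix (Fin m) (Fin m) ℂ))) = 1 := by
    simp only [conjTranspose_kronecker, conjTranspose_one, s1_H, ← mul_kronecker_mul, mul_one,
      s1_s1, one_kronecker_one]
  have hsplit : loc n d m A γ x ⊗ₖ (s1 ⊗ₖ (1 : Matrix (Fin m) (Fin m) ℂ))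
      = ((1 : Matrix (Fin n × Fin m) (Fin n × Fin m) ℂ) ⊗ₖ
      (s1 ⊗ₖ (1 : Matrix (Fin m) (Fin m) ℂ)))
        * (loc n d m A γ x ⊗ₖ (1 : Matrix (Fin 2 × Fin m) (Fin 2 × Fin m) ℂ)) := by
    rw [← mul_kronecker_mul, one_mul, mul_one]
  rw [BB_eq, hsplit, ← mulVec_mulVec, nsq_isometry _ hiso, nsq_prod v,
    nsq_prod ((loc n d m A γ x ⊗ₖ (1 : Matrix (Fin 2 × Fin m) (Fin 2 × Fin m) ℂ)) *ᵥ v),
    Finset.mul_sum]
  apply Finset.sum_le_sum
  intro k _
  have h2 : (fun a => ((loc n d m A γ x ⊗ₖ (1 : Matrix (Fin 2 × Fin m) (Fin 2 × Fin m) ℂ)) *ᵥ v)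
      (a, k)) = loc n d m A γ x *ᵥ (fun a => v (a, k)) := by
    funext a
    exact kron_one_mulVec _ v a k
  rw [h2]
  exact hg x _

end setup

end Pool.Agent.Work.MP_9fb148_an
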