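import Mathlib

set_option autoImplicit false

open Matrix
open scoped Kronecker

namespace Pool.Agent.Work.MP_9fb148_an

variable {ι κ : Type} [Fintype ι] [DecidableEq ι] [Fintype κ] [DecidableEq κ]

/-- squared Euclidean norm -/
def nsq {ι : Type} [Fintype ι] (v : ι → ℂ) : ℝ := ∑ i, Complex.normSq (v i)

/-- real part of the quadratic form of `M` -/
def q {ι : Type} [Fintype ι] (M : Matrix ι ι ℂ) (v : ι → ℂ) : ℝ := (star v ⬝ᵥ (M *ᵥ v)).re

omit [DecidableEq ι] in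
lemma nsq_nonneg (v : ι → ℂ) : 0 ≤ nsq v :=
  Finset.sum_nonneg fun i _ => Complex.normSq_nonneg (v i)

omit [DecidableEq ι] in
lemma nsq_eq_zero {v : ι → ℂ} (h : nsq v = 0) : v = 0 := by
  funext i
  have := (Finset.sum_eq_zero_iff_of_nonneg (fun i _ => Complex.normSq_nonneg (v i))).1 h i
    (Finset.mem_univ i)
  exact Complex.normSq_eq_zero.1 this

omit [DecidableEq ι] in
lemma nsq_add_le (u v : ι → ℂ) : nsq (u + v) ≤ 2 * nsq u + 2 * nsq v := by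
  unfold nsq
  rw [Finset.mul_sum, Finset.mul_sum, ← Finset.sum_add_distrib]
  apply Finset.sum_le_sum
  intro i _
  simp only [Pi.add_apply, Complex.normSq_apply, Complex.add_re, Complex.add_im]
  nlinarith [sq_nonneg ((u i).re - (v i).re), sq_nonneg ((u i).im - (v i).im)]

omit [DecidableEq ι] in
lemma nsq_eq_re (v : ι → ℂ) : nsq v = (star v ⬝ᵥ v).re := by
  unfold nsq
  simp only [dotProduct, Complex.re_sum, Pi.star_apply]
  apply Finset.sum_congr rfl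
  intro i _
  simp [Complex.normSq_apply, Complex.mul_re]

lemma q_one (v : ι → ℂ) : q (1 : Matrix ι ι ℂ) v = nsq v := by
  rw [nsq_eq_re, q, one_mulVec]

omit [DecidableEq ι] in
lemma nsq_mulVec (M : Matrix ι ι ℂ) (v : ι → ℂ) : nsq (M *ᵥ v) = q (Mᴴ * M) v := by
  rw [nsq_eq_re, q, star_mulVec, ← dotProduct_mulVec, mulVec_mulVec]

omit [DecidableEq ι] in
lemma q_add (M N : Matrix ι ι ℂ) (v : ι → ℂ) : q (M + N) v = q M v + q N v := by
  simp [q, add_mulVec, dotProduct_add]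

omit [DecidableEq ι] in
lemma q_neg (M : Matrix ι ι ℂ) (v : ι → ℂ) : q (-M) v = - q M v := by
  simp [q, neg_mulVec, dotProduct_neg]

omit [DecidableEq ι] in
lemma q_sub (M N : Matrix ι ι ℂ) (v : ι → ℂ) : q (M - N) v = q M v - q N v := by
  simp [q, sub_mulVec, dotProduct_sub]

omit [DecidableEq ι] in
lemma q_smul (c : ℝ) (M : Matrix ι ι ℂ) (v : ι → ℂ) : q ((c : ℂ) • M) v = c * q M v := by
  simp [q, smul_mulVec, dotProduct_smul]

/-- an isometry preserves `nsq` -/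
lemma nsq_isometry (U : Matrix ι ι ℂ) (hU : Uᴴ * U = 1) (v : ι → ℂ) : nsq (U *ᵥ v) = nsq v := by
  rw [nsq_mulVec, hU, q_one]

lemma kron_diag_mulVec (M G : Matrix ι ι ℂ) (t : κ → ℂ) (u : ι × κ → ℂ) (i : ι) (k : κ) :
    ((M ⊗ₖ (1 : Matrix κ κ ℂ) - G ⊗ₖ diagonal t) *ᵥ u) (i, k)
      = ((M - t k • G) *ᵥ (fun a => u (a, k))) i := by
  simp only [mulVec, dotProduct, Fintype.sum_prod_type, Matrix.sub_apply, kroneckerMap_apply, one_apply,
    diagonal_apply, Matrix.smul_apply, smul_eq_mul]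
  apply Finset.sum_congr rfl
  intro a _
  rw [Finset.sum_eq_single k]
  · rw [if_pos rfl, if_pos rfl]; ring
  · intro b _ hb
    simp [Ne.symm hb]
  · intro h
    exact absurd (Finset.mem_univ k) h

lemma kron_one_mulVec (M : Matrix ι ι ℂ) (u : ι × κ → ℂ) (i : ι) (k : κ) :
    ((M ⊗ₖ (1 : Matrix κ κ ℂ)) *ᵥ u) (i, k) = (M *ᵥ (fun a => u (a, k))) i := by
  have h := kron_diag_mulVec M (0 : Matrix ι ι ℂ) (fun _ : κ => (0 : ℂ)) u i k
  simpa using h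

omit [DecidableEq ι] [DecidableEq κ] in
lemma nsq_prod (u : ι × κ → ℂ) : nsq u = ∑ k, nsq (fun a => u (a, k)) := by
  unfold nsq
  rw [Fintype.sum_prod_type, Finset.sum_comm]

/-- A uniform gap for the family `M - t G` passes to `M ⊗ 1 - G ⊗ X` for `X` Hermitian. -/
lemma gap_kron (Q M G : Matrix ι ι ℂ) (X : Matrix κ κ ℂ) (hX : X.IsHermitian) (δ : ℝ)
    (h : ∀ t : ℝ, ∀ v, Q *ᵥ v = v → δ * nsq v ≤ nsq ((M - (t : ℂ) • G) *ᵥ v))
    (u : ι × κ → ℂ) (hu : (Q ⊗ₖ (1 : Matrix κ κ ℂ)) *ᵥ u = u) :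
    δ * nsq u ≤ nsq ((M ⊗ₖ (1 : Matrix κ κ ℂ) - G ⊗ₖ X) *ᵥ u) := by
  classical
  set U : Matrix κ κ ℂ := (hX.eigenvectorUnitary : Matrix κ κ ℂ) with hUdef
  set t : κ → ℝ := hX.eigenvalues with ht
  have hUU : Uᴴ * U = 1 := by
    have := (Matrix.mem_unitaryGroup_iff').1 hX.eigenvectorUnitary.2
    simpa [star_eq_conjTranspose] using this
  have hUU' : U * Uᴴ = 1 := by
    have := (Matrix.mem_unitaryGroup_iff).1 hX.eigenvectorUnitary.2
    simpa [star_eq_conjTranspose] using this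
  have hXU : X = U * diagonal (fun k => (t k : ℂ)) * Uᴴ := by
    have := hX.spectral_theorem
    rw [Unitary.conjStarAlgAut_apply] at this
    exact this
  have hfac : (M ⊗ₖ (1 : Matrix κ κ ℂ) - G ⊗ₖ X)
      = ((1 : Matrix ι ι ℂ) ⊗ₖ U) * (M ⊗ₖ (1 : Matrix κ κ ℂ) - G ⊗ₖ diagonal (fun k => (t k : ℂ)))
        * ((1 : Matrix ι ι ℂ) ⊗ₖ Uᴴ) := by
    rw [mul_sub, sub_mul, ← mul_kronecker_mul, ← mul_kronecker_mul, ← mul_kronecker_mul,
      ← mul_kronecker_mul, ← hXU]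
    simp [hUU']
  have hiso : ((1 : Matrix ι ι ℂ) ⊗ₖ U)ᴴ * ((1 : Matrix ι ι ℂ) ⊗ₖ U) = 1 := by
    rw [conjTranspose_kronecker, ← mul_kronecker_mul, hUU]
    simp
  have hiso' : ((1 : Matrix ι ι ℂ) ⊗ₖ Uᴴ)ᴴ * ((1 : Matrix ι ι ℂ) ⊗ₖ Uᴴ) = 1 := by
    rw [conjTranspose_kronecker, ← mul_kronecker_mul, conjTranspose_conjTranspose, hUU']
    simp
  set z : ι × κ → ℂ := ((1 : Matrix ι ι ℂ) ⊗ₖ Uᴴ) *ᵥ u with hz
  have hznsq : nsq z = nsq u := nsq_isometry _ hiso' u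
  have hQz : (Q ⊗ₖ (1 : Matrix κ κ ℂ)) *ᵥ z = z := by
    rw [hz, mulVec_mulVec, ← mul_kronecker_mul, mul_one, one_mul]
    conv_rhs => rw [← hu, mulVec_mulVec, ← mul_kronecker_mul, mul_one, one_mul]
  have hQzk : ∀ k, Q *ᵥ (fun a => z (a, k)) = fun a => z (a, k) := by
    intro k
    funext a
    rw [← kron_one_mulVec Q z a k, hQz]
  rw [hfac, ← mulVec_mulVec, ← mulVec_mulVec, nsq_isometry _ hiso, ← hznsq, ← hz, nsq_prod,
    nsq_prod, Finset.mul_sum]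
  apply Finset.sum_le_sum
  intro k _
  have h2 : (fun a => ((M ⊗ₖ (1 : Matrix κ κ ℂ) - G ⊗ₖ diagonal (fun k => (t k : ℂ))) *ᵥ z) (a, k))
      = (M - (t k : ℂ) • G) *ᵥ (fun a => z (a, k)) := by
    funext a
    exact kron_diag_mulVec M G _ z a k
  rw [h2]
  exact h (t k) _ (hQzk k)

section kron
variable {l m n p : Type}

lemma kron_sub (A : Matrix l m ℂ) (B₁ B₂ : Matrix n p ℂ) :
    A ⊗ₖ (B₁ - B₂) = A ⊗ₖ B₁ - A ⊗ₖ B₂ := by
  ext i j; simp [mul_sub]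

lemma sub_kron (A₁ A₂ : Matrix l m ℂ) (B : Matrix n p ℂ) :
    (A₁ - A₂) ⊗ₖ B = A₁ ⊗ₖ B - A₂ ⊗ₖ B := by
  ext i j; simp [sub_mul]

lemma neg_kron (A : Matrix l m ℂ) (B : Matrix n p ℂ) : (-A) ⊗ₖ B = -(A ⊗ₖ B) := by
  ext i j; simp

lemma kron_neg (A : Matrix l m ℂ) (B : Matrix n p ℂ) : A ⊗ₖ (-B) = -(A ⊗ₖ B) := by
  ext i j; simp

lemma sum_kron {α : Type} (s : Finset α) (A : α → Matrix l m ℂ) (B : Matrix n p ℂ) :
    (∑ a ∈ s, A a) ⊗ₖ B = ∑ a ∈ s, (A a ⊗ₖ B) := by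
  classical
  induction s using Finset.induction_on with
  | empty => simp
  | insert a s ha ih => rw [Finset.sum_insert ha, Finset.sum_insert ha, add_kronecker, ih]

end kron

/-- crude bound for the action of a matrix -/
lemma exists_bound (M : Matrix ι ι ℂ) : ∃ β : ℝ, 0 ≤ β ∧ ∀ v, nsq (M *ᵥ v) ≤ β * nsq v := by
  refine ⟨∑ i, ∑ j, Complex.normSq (M i j), ?_, ?_⟩
  · exact Finset.sum_nonneg fun i _ => Finset.sum_nonneg fun j _ => Complex.normSq_nonneg _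
  · intro v
    unfold nsq
    rw [Finset.sum_mul]
    apply Finset.sum_le_sum
    intro i _
    have h1 : Complex.normSq ((M *ᵥ v) i) = ‖∑ j, M i j * v j‖ ^ 2 := by
      rw [Complex.normSq_eq_norm_sq]; rfl
    rw [h1]
    have h2 : ‖∑ j, M i j * v j‖ ≤ ∑ j, ‖M i j‖ * ‖v j‖ := by
      refine (norm_sum_le _ _).trans (le_of_eq ?_)
      apply Finset.sum_congr rfl
      intro j _
      rw [norm_mul]
    have h3 : (∑ j, ‖M i j‖ * ‖v j‖) ^ 2 ≤ (∑ j, ‖M i j‖ ^ 2) * (∑ j, ‖v j‖ ^ 2) :=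
      Finset.sum_mul_sq_le_sq_mul_sq _ _ _
    have h4 : ‖∑ j, M i j * v j‖ ^ 2 ≤ (∑ j, ‖M i j‖ * ‖v j‖) ^ 2 := by
      gcongr
    refine (h4.trans h3).trans (le_of_eq ?_)
    simp only [Complex.normSq_eq_norm_sq]

lemma bound_kron (M : Matrix ι ι ℂ) (β : ℝ) (h : ∀ v, nsq (M *ᵥ v) ≤ β * nsq v)
    (u : ι × κ → ℂ) : nsq ((M ⊗ₖ (1 : Matrix κ κ ℂ)) *ᵥ u) ≤ β * nsq u := by
  rw [nsq_prod, nsq_prod, Finset.mul_sum]
  apply Finset.sum_le_sum
  intro k _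
  have h2 : (fun a => ((M ⊗ₖ (1 : Matrix κ κ ℂ)) *ᵥ u) (a, k)) = M *ᵥ (fun a => u (a, k)) := by
    funext a
    exact kron_one_mulVec M u a k
  rw [h2]
  exact h _

omit [DecidableEq ι] in
/-- Pythagoras for a projection -/
lemma nsq_add_of_proj (P : Matrix ι ι ℂ) (hP : Pᴴ = P) (x y : ι → ℂ) (hx : P *ᵥ x = x)
    (hy : P *ᵥ y = 0) : nsq (x + y) = nsq x + nsq y := by
  have h1 : star x ⬝ᵥ y = 0 := by
    conv_lhs => rw [← hx, star_mulVec, hP, ← dotProduct_mulVec, hy, dotProduct_zero]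
  have h2 : star y ⬝ᵥ x = 0 := by
    have h3 := congrArg star h1
    rw [← star_dotProduct_star, star_star, star_zero] at h3
    exact h3
  rw [nsq_eq_re, nsq_eq_re, nsq_eq_re, star_add, add_dotProduct, dotProduct_add, dotProduct_add,
    h1, h2]
  simp

omit [DecidableEq ι] in
lemma nsq_proj_le (P : Matrix ι ι ℂ) (hP : Pᴴ = P) (hPP : P * P = P) (x : ι → ℂ) :
    nsq (P *ᵥ x) ≤ nsq x := by
  have h1 : x = P *ᵥ x + (x - P *ᵥ x) := by abel
  have h2 := nsq_add_of_proj P hP (P *ᵥ x) (x - P *ᵥ x) (by rw [mulVec_mulVec, hPP])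
    (by rw [mulVec_sub, mulVec_mulVec, hPP, sub_self])
  rw [← h1] at h2
  have := nsq_nonneg (x - P *ᵥ x)
  linarith

/-- ordered product of a finite family of matrices -/
def prodW {ι : Type} [Fintype ι] [DecidableEq ι] :
    (d : ℕ) → (Fin d → Matrix ι ι ℂ) → Matrix ι ι ℂ
  | 0, _ => 1
  | d + 1, w => w 0 * prodW d (fun j => w j.succ)

lemma prodW_kron (d : ℕ) (w : Fin d → Matrix ι ι ℂ) :
    prodW d (fun j => w j ⊗ₖ (1 : Matrix κ κ ℂ)) = prodW d w ⊗ₖ (1 : Matrix κ κ ℂ) := by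
  induction d with
  | zero => simp [prodW]
  | succ d ih =>
    simp only [prodW]
    rw [ih (fun j => w j.succ), ← mul_kronecker_mul, mul_one]

lemma prodW_comm (d : ℕ) (w : Fin d → Matrix ι ι ℂ) (Z : Matrix ι ι ℂ)
    (h : ∀ j, Z * w j = w j * Z) : Z * prodW d w = prodW d w * Z := by
  induction d with
  | zero => simp [prodW]
  | succ d ih =>
    simp only [prodW]
    rw [← mul_assoc, h 0, mul_assoc, ih (fun j => w j.succ) (fun j => h j.succ), mul_assoc]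

end Pool.Agent.Work.MP_9fb148_an
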