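import Pool.Agent.Work.MP_9fb148_an.Step

set_option autoImplicit false

open Matrix
open scoped Kronecker

namespace Pool.Agent.Work.MP_9fb148_an

section gap

variable {d : ℕ} {ι : Type} [Fintype ι] [DecidableEq ι] (D : Dat (d + 1) ι)
variable (r : ℝ) (K : ℕ)

/-- The potential part `M ⊗ 1 - G ⊗ X`. -/
noncomputable def Dat.P (M : Matrix ι ι ℂ) : Matrix (ι × Fin (K + 1)) (ι × Fin (K + 1)) ℂ :=
  M ⊗ₖ (1 : Matrix (Fin (K + 1)) (Fin (K + 1)) ℂ) - D.G 0 ⊗ₖ (osc r K + (osc r K)ᴴ)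

noncomputable def Dat.R : Matrix (ι × Fin (K + 1)) (ι × Fin (K + 1)) ℂ :=
  D.F 0 ⊗ₖ (osc r K - (osc r K)ᴴ)

lemma Dat.P_herm (M : Matrix ι ι ℂ) (hM : Mᴴ = M) : (D.P r K M)ᴴ = D.P r K M := by
  unfold Dat.P
  rw [conjTranspose_sub, conjTranspose_kronecker, conjTranspose_kronecker, hM, conjTranspose_one,
    D.hG, conjTranspose_add, conjTranspose_conjTranspose, add_comm (osc r K)ᴴ]

lemma Dat.R_herm : (D.R r K)ᴴ = D.R r K := by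
  unfold Dat.R
  rw [conjTranspose_kronecker, D.hF, conjTranspose_sub, conjTranspose_conjTranspose, neg_kron,
    ← kron_neg, neg_sub]

lemma Dat.cross (hr : 0 ≤ r) (M : Matrix ι ι ℂ) (hFM : D.F 0 * M = -(M * D.F 0)) :
    D.P r K M * D.R r K + D.R r K * D.P r K M
      = ((2 * r : ℝ) : ℂ) • (D.w ⊗ₖ (1 : Matrix (Fin (K + 1)) (Fin (K + 1)) ℂ))
        - ((2 * (r * (K + 1)) : ℝ) : ℂ) • (D.w ⊗ₖ top K) := by
  have e1 : D.P r K M * D.R r K + D.R r K * D.P r K M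
      = -(D.w ⊗ₖ ((osc r K + (osc r K)ᴴ) * (osc r K - (osc r K)ᴴ)
          - (osc r K - (osc r K)ᴴ) * (osc r K + (osc r K)ᴴ))) := by
    unfold Dat.P Dat.R
    rw [sub_mul, mul_sub, ← mul_kronecker_mul, ← mul_kronecker_mul, ← mul_kronecker_mul,
      ← mul_kronecker_mul, one_mul, mul_one, hFM, D.FG0, neg_kron, neg_kron, kron_sub D.w]
    have : D.G 0 * D.F 0 = D.w := rfl
    rw [this]
    abel
  have e2 : (osc r K + (osc r K)ᴴ) * (osc r K - (osc r K)ᴴ)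
          - (osc r K - (osc r K)ᴴ) * (osc r K + (osc r K)ᴴ)
      = -((2 : ℂ) • (osc r K * (osc r K)ᴴ - (osc r K)ᴴ * osc r K)) := by
    simp only [add_mul, sub_mul, mul_add, mul_sub]
    module
  rw [e1, e2, osc_comm r hr, kron_neg, neg_neg, kronecker_smul, kron_sub, kronecker_smul,
    kronecker_smul, smul_sub, smul_smul, smul_smul]
  push_cast
  rfl

/-- the top-level part of a vector of the new corner lies in the kernel of `n` -/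
lemma Dat.n_top_Q' : (D.n ⊗ₖ top K) * D.Q' K = 0 := by
  unfold Dat.Q'
  rw [mul_sub, ← mul_kronecker_mul, ← mul_kronecker_mul, mul_one, top_mul_top, ← D.Qn,
    ← mul_assoc, ← D.Qn, mul_assoc, D.n_n, sub_self]

lemma Dat.Q_Q' : (D.Q ⊗ₖ (1 : Matrix (Fin (K + 1)) (Fin (K + 1)) ℂ)) * D.Q' K = D.Q' K := by
  unfold Dat.Q'
  rw [mul_sub, ← mul_kronecker_mul, ← mul_kronecker_mul, mul_one, one_mul, ← mul_assoc, D.hQQ]

/-- projection on the top level -/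
noncomputable def T (ι : Type) [Fintype ι] [DecidableEq ι] (K : ℕ) :
    Matrix (ι × Fin (K + 1)) (ι × Fin (K + 1)) ℂ :=
  (1 : Matrix ι ι ℂ) ⊗ₖ top K

lemma T_T : (T ι K)ᴴ * T ι K = T ι K := by
  unfold T
  rw [conjTranspose_kronecker, conjTranspose_one, top_conjTranspose, ← mul_kronecker_mul,
    top_mul_top, mul_one]

lemma lower_bound (hr : 0 ≤ r) (δ : ℝ) (M : Matrix ι ι ℂ) (hM : Mᴴ = M)
    (hFM : D.F 0 * M = -(M * D.F 0))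
    (h : ∀ t : ℝ, ∀ v, D.Q *ᵥ v = v → δ * nsq v ≤ nsq ((M - (t : ℂ) • D.G 0) *ᵥ v))
    (u : ι × Fin (K + 1) → ℂ) (hu : D.Q' K *ᵥ u = u) :
    (δ - 2 * r) * nsq u
      ≤ nsq ((M ⊗ₖ (1 : Matrix (Fin (K + 1)) (Fin (K + 1)) ℂ) + D.D0 r K) *ᵥ u) := by
  have hQu : (D.Q ⊗ₖ (1 : Matrix (Fin (K + 1)) (Fin (K + 1)) ℂ)) *ᵥ u = u := by
    conv_lhs => rw [← hu, mulVec_mulVec, D.Q_Q', hu]
  have hX : (osc r K + (osc r K)ᴴ).IsHermitian := by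
    show (osc r K + (osc r K)ᴴ)ᴴ = _
    rw [conjTranspose_add, conjTranspose_conjTranspose, add_comm (osc r K)ᴴ (osc r K)]
  have h1 := gap_kron D.Q M (D.G 0) _ hX δ h u hQu
  have hsplit : M ⊗ₖ (1 : Matrix (Fin (K + 1)) (Fin (K + 1)) ℂ) + D.D0 r K
      = D.P r K M + D.R r K := by
    unfold Dat.P Dat.R Dat.D0
    abel
  have h2 : (D.P r K M + D.R r K)ᴴ * (D.P r K M + D.R r K)
      = (D.P r K M)ᴴ * D.P r K M + (D.R r K)ᴴ * D.R r K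
        + (D.P r K M * D.R r K + D.R r K * D.P r K M) := by
    rw [conjTranspose_add, D.P_herm r K M hM, D.R_herm, add_mul, mul_add, mul_add]
    abel
  have hn : (D.n ⊗ₖ top K) *ᵥ u = 0 := by
    conv_lhs => rw [← hu, mulVec_mulVec, D.n_top_Q', zero_mulVec]
  have hw : D.w = (2 : ℂ) • D.n - 1 := by unfold Dat.n; module
  have hw1 : D.w ⊗ₖ (1 : Matrix (Fin (K + 1)) (Fin (K + 1)) ℂ)
      = ((2 : ℝ) : ℂ) • ((D.c ⊗ₖ (1 : Matrix (Fin (K + 1)) (Fin (K + 1)) ℂ))ᴴ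
          * (D.c ⊗ₖ (1 : Matrix (Fin (K + 1)) (Fin (K + 1)) ℂ))) - 1 := by
    rw [conjTranspose_kronecker, conjTranspose_one, ← mul_kronecker_mul, D.c_star, D.cs_c, mul_one,
      hw, sub_kron, smul_kronecker, one_kronecker_one]
    norm_num
  have hw2 : q (D.w ⊗ₖ top K) u = - nsq (T ι K *ᵥ u) := by
    have : D.w ⊗ₖ top K = ((2 : ℝ) : ℂ) • (D.n ⊗ₖ top K) - T ι K := by
      rw [hw, sub_kron, smul_kronecker, T]; norm_num
    rw [this, q_sub, q_smul]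
    have h0 : q (D.n ⊗ₖ top K) u = 0 := by simp [q, hn]
    rw [h0, nsq_mulVec, T_T]; ring
  rw [hsplit, nsq_mulVec, h2, D.cross r K hr M hFM, q_add, q_add, q_sub, q_smul, q_smul, hw1,
    q_sub, q_smul, q_one, ← nsq_mulVec, ← nsq_mulVec, ← nsq_mulVec, hw2]
  have h3 := nsq_nonneg (D.R r K *ᵥ u)
  have h4 := nsq_nonneg (T ι K *ᵥ u)
  have h5 := nsq_nonneg ((D.c ⊗ₖ (1 : Matrix (Fin (K + 1)) (Fin (K + 1)) ℂ)) *ᵥ u)
  have h6 : δ * nsq u ≤ nsq (D.P r K M *ᵥ u) := h1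
  have h7 : 0 ≤ 2 * (r * (K + 1)) * nsq (T ι K *ᵥ u) := by positivity
  have h8 : 0 ≤ 2 * r * (2 * nsq ((D.c ⊗ₖ (1 : Matrix (Fin (K + 1)) (Fin (K + 1)) ℂ)) *ᵥ u)) := by
    positivity
  linarith

lemma energy (hr : 0 ≤ r) (M1 : Matrix ι ι ℂ) (hM1 : M1ᴴ = M1)
    (h1 : M1 * D.G 0 = -(D.G 0 * M1)) (h2 : M1 * D.F 0 = -(D.F 0 * M1))
    (u : ι × Fin (K + 1) → ℂ) (hu : D.Q' K *ᵥ u = u) :
    4 * (r * K) * nsq (T ι K *ᵥ u)
      ≤ nsq ((D.D0 r K + M1 ⊗ₖ (1 : Matrix (Fin (K + 1)) (Fin (K + 1)) ℂ)) *ᵥ u) := by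
  have hn : (D.n ⊗ₖ top K) *ᵥ u = 0 := by
    conv_lhs => rw [← hu, mulVec_mulVec, D.n_top_Q', zero_mulVec]
  set α := D.cs ⊗ₖ osc r K with hα
  have hαs : αᴴ = D.c ⊗ₖ (osc r K)ᴴ := by
    rw [hα, conjTranspose_kronecker, D.cs_star]
  have hαα : α * α = 0 := by
    rw [hα, ← mul_kronecker_mul, D.cs_cs, zero_kronecker]
  have hααs : αᴴ * αᴴ = 0 := by
    rw [← conjTranspose_mul, hαα, conjTranspose_zero]
  have hD0 : D.D0 r K = -((2 : ℂ) • α) - (2 : ℂ) • αᴴ := by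
    rw [D.D0_eq, hαs]
  have hD0sq : D.D0 r K * D.D0 r K
      = ((4 : ℝ) : ℂ) • (αᴴᴴ * αᴴ) + ((4 : ℝ) : ℂ) • (αᴴ * α) := by
    rw [hD0, conjTranspose_conjTranspose]
    simp only [sub_mul, mul_sub, neg_mul, mul_neg, smul_mul_assoc, mul_smul_comm, hαα, hααs]
    push_cast
    module
  set Z := M1 ⊗ₖ (1 : Matrix (Fin (K + 1)) (Fin (K + 1)) ℂ) with hZ
  have hZs : Zᴴ = Z := by rw [hZ, conjTranspose_kronecker, hM1, conjTranspose_one]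
  have hanti : Z * D.D0 r K = -(D.D0 r K * Z) := D.D0_anti r K h1 h2
  have hsq : (D.D0 r K + Z)ᴴ * (D.D0 r K + Z)
      = ((4 : ℝ) : ℂ) • (αᴴᴴ * αᴴ) + ((4 : ℝ) : ℂ) • (αᴴ * α) + Zᴴ * Z := by
    rw [conjTranspose_add, D.D0_herm, hZs, add_mul, mul_add, mul_add, hanti, hD0sq]
    abel
  rw [nsq_mulVec (D.D0 r K + Z), hsq, q_add, q_add, q_smul, q_smul, ← nsq_mulVec αᴴ,
    ← nsq_mulVec Z]
  have key : (osc r K * (1 - top K))ᴴ * (osc r K * (1 - top K))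
      = (osc r K)ᴴ * osc r K - ((r * K : ℝ) : ℂ) • top K := by
    have e1 := oscH_osc_top r hr K
    have e2 := top_oscH_osc r hr K
    have e3 : (osc r K * (1 - top K))ᴴ * (osc r K * (1 - top K))
        = (1 - top K) * ((osc r K)ᴴ * osc r K) * (1 - top K) := by
      rw [conjTranspose_mul, conjTranspose_sub, conjTranspose_one, top_conjTranspose]
      simp only [mul_assoc]
    rw [e3, sub_mul, one_mul, e2, mul_sub, mul_one, sub_mul, e1, smul_mul_assoc, top_mul_top]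
    abel
  have hα2 : αᴴ * α = (D.cs ⊗ₖ (osc r K * (1 - top K)))ᴴ * (D.cs ⊗ₖ (osc r K * (1 - top K)))
      + ((r * K : ℝ) : ℂ) • (T ι K - D.n ⊗ₖ top K) := by
    have hTn : T ι K - D.n ⊗ₖ top K = (1 - D.n) ⊗ₖ top K := by rw [T, sub_kron]
    rw [hTn, hαs, hα, ← mul_kronecker_mul, conjTranspose_kronecker, D.cs_star, ← mul_kronecker_mul,
      D.c_cs, ← kronecker_smul, ← kronecker_add]
    congr 1
    rw [key]
    abel
  rw [hα2, q_add, q_smul, q_sub, ← nsq_mulVec]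
  have h0 : q (D.n ⊗ₖ top K) u = 0 := by simp [q, hn]
  have hT : q (T ι K) u = nsq (T ι K *ᵥ u) := by rw [nsq_mulVec, T_T]
  rw [h0, hT]
  have e1 := nsq_nonneg (αᴴ *ᵥ u)
  have e2 := nsq_nonneg (Z *ᵥ u)
  have e3 := nsq_nonneg ((D.cs ⊗ₖ (osc r K * (1 - top K))) *ᵥ u)
  nlinarith

/-- sum of anticommuting terms -/
lemma anti_sum {Z : Matrix ι ι ℂ} {α : Type} (s : Finset α) (c : α → ℂ) (H : α → Matrix ι ι ℂ)
    (h : ∀ a, H a * Z = -(Z * H a)) :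
    (-∑ a ∈ s, c a • H a) * Z = -(Z * (-∑ a ∈ s, c a • H a)) := by
  rw [neg_mul, mul_neg, Finset.sum_mul, Finset.mul_sum, neg_neg, ← Finset.sum_neg_distrib]
  apply Finset.sum_congr rfl
  intro a _
  rw [smul_mul_assoc, mul_smul_comm, h a, smul_neg, neg_neg]

lemma comm_sum {Z : Matrix ι ι ℂ} {α : Type} (s : Finset α) (c : α → ℂ) (H : α → Matrix ι ι ℂ)
    (h : ∀ a, Z * H a = H a * Z) :
    Z * (-∑ a ∈ s, c a • H a) = (-∑ a ∈ s, c a • H a) * Z := by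
  rw [neg_mul, mul_neg, Finset.sum_mul, Finset.mul_sum]
  congr 1
  apply Finset.sum_congr rfl
  intro a _
  rw [smul_mul_assoc, mul_smul_comm, h a]

lemma y_eq (u : ι × Fin (K + 1) → ℂ) (hu : D.Q' K *ᵥ u = u) :
    (D.B ⊗ₖ (1 : Matrix (Fin (K + 1)) (Fin (K + 1)) ℂ)) *ᵥ u
      - D.Q' K *ᵥ ((D.B ⊗ₖ (1 : Matrix (Fin (K + 1)) (Fin (K + 1)) ℂ)) *ᵥ u)
    = ((D.n * D.B) ⊗ₖ (1 : Matrix (Fin (K + 1)) (Fin (K + 1)) ℂ)) *ᵥ (T ι K *ᵥ u) := by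
  have hQu : (D.Q ⊗ₖ (1 : Matrix (Fin (K + 1)) (Fin (K + 1)) ℂ)) *ᵥ u = u := by
    conv_lhs => rw [← hu, mulVec_mulVec, D.Q_Q', hu]
  have key : (D.B ⊗ₖ (1 : Matrix (Fin (K + 1)) (Fin (K + 1)) ℂ)
      - D.Q' K * (D.B ⊗ₖ (1 : Matrix (Fin (K + 1)) (Fin (K + 1)) ℂ)))
        * (D.Q ⊗ₖ (1 : Matrix (Fin (K + 1)) (Fin (K + 1)) ℂ))
      = ((D.n * D.B) ⊗ₖ (1 : Matrix (Fin (K + 1)) (Fin (K + 1)) ℂ)) * T ι K
        * (D.Q ⊗ₖ (1 : Matrix (Fin (K + 1)) (Fin (K + 1)) ℂ)) := by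
    unfold Dat.Q' T
    have e1 : D.Q * D.B * D.Q = D.B * D.Q := by rw [D.hQB, mul_assoc, D.hQQ]
    have e2 : D.Q * D.n * D.B * D.Q = D.n * D.B * D.Q := by
      rw [D.Qn, mul_assoc D.n, D.hQB, ← mul_assoc D.n, mul_assoc (D.n * D.B), D.hQQ]
    rw [sub_mul, sub_mul, sub_mul, ← mul_kronecker_mul, ← mul_kronecker_mul, ← mul_kronecker_mul,
      ← mul_kronecker_mul, ← mul_kronecker_mul, ← mul_kronecker_mul, ← mul_kronecker_mul]
    simp only [mul_one, one_mul]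
    rw [e1, e2]
    abel
  have h1 : (D.B ⊗ₖ (1 : Matrix (Fin (K + 1)) (Fin (K + 1)) ℂ)) *ᵥ u
      - D.Q' K *ᵥ ((D.B ⊗ₖ (1 : Matrix (Fin (K + 1)) (Fin (K + 1)) ℂ)) *ᵥ u)
      = (D.B ⊗ₖ (1 : Matrix (Fin (K + 1)) (Fin (K + 1)) ℂ)
        - D.Q' K * (D.B ⊗ₖ (1 : Matrix (Fin (K + 1)) (Fin (K + 1)) ℂ))) *ᵥ u := by
    rw [sub_mulVec, mulVec_mulVec]
  rw [h1, mulVec_mulVec]
  conv_lhs => rw [← hQu, mulVec_mulVec, key, ← mulVec_mulVec, hQu]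

theorem next_gap (δ : ℝ) (hδ : 0 < δ) (hgap : D.Gap δ) :
    ∃ (r : ℝ) (K : ℕ), (D.next r K).Gap (δ / 4) := by
  obtain ⟨β₁, hβ₁, hb₁⟩ := exists_bound D.B
  obtain ⟨β₂, hβ₂, hb₂⟩ := exists_bound (D.n * D.B)
  set β := β₁ + β₂ with hβ
  have hβ0 : 0 ≤ β := by positivity
  have hb₁' : ∀ v, nsq (D.B *ᵥ v) ≤ β * nsq v := fun v =>
    (hb₁ v).trans (by have := nsq_nonneg v; nlinarith)
  have hb₂' : ∀ v, nsq ((D.n * D.B) *ᵥ v) ≤ β * nsq v := fun v =>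
    (hb₂ v).trans (by have := nsq_nonneg v; nlinarith)
  obtain ⟨K, hK⟩ := exists_nat_ge ((2 * β + 8 * β ^ 2 / δ) / (4 * (δ / 8)) + 1)
  refine ⟨δ / 8, K, ?_⟩
  have hr : (0 : ℝ) ≤ δ / 8 := by positivity
  intro x u hu
  have hu' : D.Q' K *ᵥ u = u := hu
  set M1 : Matrix ι ι ℂ := -∑ j : Fin d, (x j : ℂ) • D.G j.succ with hM1
  set M : Matrix ι ι ℂ := D.B + M1 with hM
  have hM1G : M1 * D.G 0 = -(D.G 0 * M1) :=
    anti_sum _ _ _ (fun j => D.hGG' j.succ 0 (Fin.succ_ne_zero j))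
  have hM1F : M1 * D.F 0 = -(D.F 0 * M1) :=
    anti_sum _ _ _ (fun j => D.hGF j.succ 0)
  have hM1herm : M1ᴴ = M1 := by
    rw [hM1, conjTranspose_neg, conjTranspose_sum]
    congr 1
    apply Finset.sum_congr rfl
    intro j _
    rw [conjTranspose_smul, D.hG]
    simp
  have hMherm : Mᴴ = M := by rw [hM, conjTranspose_add, D.hB, hM1herm]
  have hFM : D.F 0 * M = -(M * D.F 0) := by
    rw [hM, mul_add, add_mul, D.hFB, hM1F]; abel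
  have hslice : ∀ t : ℝ, ∀ v, D.Q *ᵥ v = v → δ * nsq v ≤ nsq ((M - (t : ℂ) • D.G 0) *ᵥ v) := by
    intro t v hv
    have h := hgap (Fin.cons t x) v hv
    rw [Fin.sum_univ_succ] at h
    simp only [Fin.cons_zero, Fin.cons_succ] at h
    have e : M - (t : ℂ) • D.G 0
        = D.B - ((t : ℂ) • D.G 0 + ∑ j : Fin d, (x j : ℂ) • D.G j.succ) := by
      rw [hM, hM1]; abel
    rw [e]; exact h
  -- abbreviations
  set BB := D.B ⊗ₖ (1 : Matrix (Fin (K + 1)) (Fin (K + 1)) ℂ) with hBB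
  set D1 := D.D0 (δ / 8) K + M1 ⊗ₖ (1 : Matrix (Fin (K + 1)) (Fin (K + 1)) ℂ) with hD1
  have hlow := lower_bound D (δ / 8) K hr δ M hMherm hFM hslice u hu'
  have hen := energy D (δ / 8) K hr M1 hM1herm hM1G hM1F u hu'
  have hsplit : M ⊗ₖ (1 : Matrix (Fin (K + 1)) (Fin (K + 1)) ℂ) + D.D0 (δ / 8) K = BB + D1 := by
    rw [hM, add_kronecker, hBB, hD1]; abel
  rw [hsplit, add_mulVec] at hlow
  -- the operator of the new datum
  set N' := (D.next (δ / 8) K).B - ∑ j, (x j : ℂ) • (D.next (δ / 8) K).G j with hN'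
  have hN'eq : N' = D.Q' K * BB * D.Q' K + D1 := by
    have : (∑ j, (x j : ℂ) • (D.next (δ / 8) K).G j)
        = -(M1 ⊗ₖ (1 : Matrix (Fin (K + 1)) (Fin (K + 1)) ℂ)) := by
      rw [hM1, neg_kron, neg_neg, sum_kron]
      apply Finset.sum_congr rfl
      intro j _
      rw [smul_kronecker]
      rfl
    rw [hN', this, hD1]
    show D.B' (δ / 8) K - _ = _
    unfold Dat.B'
    rw [sub_neg_eq_add, add_assoc]
  have hN'u : N' *ᵥ u = D.Q' K *ᵥ (BB *ᵥ u) + D1 *ᵥ u := by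
    rw [hN'eq, add_mulVec, ← mulVec_mulVec, hu', ← mulVec_mulVec]
  have hQ'D1 : D.Q' K * D1 = D1 * D.Q' K := by
    rw [hD1, mul_add, add_mul, D.Q'_D0, D.Q'_comm K]
    · exact comm_sum _ _ _ (fun j => D.hQG j.succ)
    · exact (comm_sum _ _ _ (fun j => (D.Gn j).symm)).symm
  have hQN : D.Q' K *ᵥ (N' *ᵥ u) = N' *ᵥ u := by
    have e1 : D.Q' K *ᵥ (D1 *ᵥ u) = D1 *ᵥ u := by
      rw [mulVec_mulVec, hQ'D1, ← mulVec_mulVec, hu']
    have e2 : D.Q' K *ᵥ (D.Q' K *ᵥ (BB *ᵥ u)) = D.Q' K *ᵥ (BB *ᵥ u) := by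
      rw [mulVec_mulVec (BB *ᵥ u), D.Q'_Q']
    rw [hN'u, mulVec_add, e1, e2]
  set y := BB *ᵥ u - D.Q' K *ᵥ (BB *ᵥ u) with hy
  have hQy : D.Q' K *ᵥ y = 0 := by
    rw [hy, mulVec_sub, mulVec_mulVec _ (D.Q' K) (D.Q' K), D.Q'_Q', sub_self]
  have hsum : BB *ᵥ u + D1 *ᵥ u = N' *ᵥ u + y := by
    rw [hN'u, hy]; abel
  have hpyth : nsq (BB *ᵥ u + D1 *ᵥ u) = nsq (N' *ᵥ u) + nsq y := by
    rw [hsum]
    exact nsq_add_of_proj (D.Q' K) (D.Q'_herm K) _ _ hQN hQy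
  have hybound : nsq y ≤ β * nsq (T ι K *ᵥ u) := by
    rw [hy, hBB, y_eq D K u hu']
    exact bound_kron _ β hb₂' _
  have hD1bound : nsq (D1 *ᵥ u) ≤ 2 * nsq (N' *ᵥ u) + 2 * (β * nsq u) := by
    have e1 : D1 *ᵥ u = N' *ᵥ u + -(D.Q' K *ᵥ (BB *ᵥ u)) := by rw [hN'u]; abel
    rw [e1]
    refine (nsq_add_le _ _).trans ?_
    have e2 : nsq (-(D.Q' K *ᵥ (BB *ᵥ u))) = nsq (D.Q' K *ᵥ (BB *ᵥ u)) := by simp [nsq]
    have e3 := nsq_proj_le (D.Q' K) (D.Q'_herm K) (D.Q'_Q' K) (BB *ᵥ u)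
    have e4 := bound_kron (κ := Fin (K + 1)) D.B β hb₁' u
    rw [e2]
    linarith
  -- arithmetic
  have a1 := nsq_nonneg (N' *ᵥ u)
  have a2 := nsq_nonneg u
  have a3 := nsq_nonneg (T ι K *ᵥ u)
  set a := nsq (N' *ᵥ u) with ha
  set N := nsq u with hN
  set e := nsq (T ι K *ᵥ u) with he
  have hKbig : 2 * β + 8 * β ^ 2 / δ ≤ 4 * (δ / 8 * K) := by
    have h1 : (2 * β + 8 * β ^ 2 / δ) / (4 * (δ / 8)) ≤ K := by linarith
    rw [div_le_iff₀ (by positivity)] at h1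
    linarith
  have hKpos : 0 < 4 * (δ / 8 * K) := by
    have h0 : (0 : ℝ) ≤ (2 * β + 8 * β ^ 2 / δ) / (4 * (δ / 8)) := by positivity
    have h1 : (1 : ℝ) ≤ K := by linarith
    positivity
  set L := 4 * (δ / 8 * (K : ℝ)) with hL
  -- L e ≤ 2 a + 2 β N
  have b1 : L * e ≤ 2 * a + 2 * (β * N) := hen.trans hD1bound
  have b2 : (δ - 2 * (δ / 8)) * N ≤ a + β * e := by linarith
  -- β e ≤ a + δ/4 N
  have b3 : L * (β * e) ≤ L * (a + δ / 4 * N) := by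
    have c1 : L * (β * e) ≤ β * (2 * a + 2 * (β * N)) := by nlinarith
    have c2 : (2 * β) * a + (8 * β ^ 2 / δ) * (δ / 4 * N) = β * (2 * a + 2 * (β * N)) := by
      field_simp
      ring
    have c3 : 0 ≤ 8 * β ^ 2 / δ := by positivity
    have c4 : (2 * β) * a ≤ L * a := by nlinarith
    have c5 : (8 * β ^ 2 / δ) * (δ / 4 * N) ≤ L * (δ / 4 * N) := by
      have : 0 ≤ δ / 4 * N := by positivity
      nlinarith
    nlinarith
  have b4 : β * e ≤ a + δ / 4 * N := le_of_mul_le_mul_left b3 hKpos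
  show δ / 4 * N ≤ a
  nlinarith

theorem no_gap : ∀ (d : ℕ) (ι : Type) [Fintype ι] [DecidableEq ι] (D : Dat d ι) (δ : ℝ),
    0 < δ → ¬ D.Gap δ := by
  intro d
  induction d with
  | zero => intro ι _ _ D δ hδ h; exact base D δ hδ h
  | succ d ih =>
    intro ι _ _ D δ hδ h
    obtain ⟨r, K, hg⟩ := next_gap D δ hδ h
    exact ih _ (D.next r K) (δ / 4) (by positivity) hg

end gap

end Pool.Agent.Work.MP_9fb148_an
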