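import Pool.Agent.Work.MP_9fb148_an.Basic

set_option autoImplicit false

open Matrix
open scoped Kronecker

namespace Pool.Agent.Work.MP_9fb148_an

/-- truncated annihilation matrix with `K + 1` levels -/
noncomputable def osc (r : ℝ) (K : ℕ) : Matrix (Fin (K + 1)) (Fin (K + 1)) ℂ :=
  fun i j => if (j : ℕ) = (i : ℕ) + 1 then ((Real.sqrt (r * (j : ℕ)) : ℝ) : ℂ) else 0

/-- projection on the top level -/
def top (K : ℕ) : Matrix (Fin (K + 1)) (Fin (K + 1)) ℂ :=
  diagonal (fun i => if i = Fin.last K then (1 : ℂ) else 0)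

lemma top_mul_top (K : ℕ) : top K * top K = top K := by
  unfold top
  rw [diagonal_mul_diagonal]
  congr 1
  funext i
  by_cases h : i = Fin.last K <;> simp [h]

lemma top_conjTranspose (K : ℕ) : (top K)ᴴ = top K := by
  unfold top
  rw [diagonal_conjTranspose]
  congr 1
  funext i
  by_cases h : i = Fin.last K <;> simp [h]

lemma top_trace (K : ℕ) : (top K).trace = 1 := by
  unfold top
  rw [trace_diagonal]
  simp

lemma osc_mul_conj (r : ℝ) (hr : 0 ≤ r) (K : ℕ) :
    osc r K * (osc r K)ᴴ
      = diagonal (fun i => if i = Fin.last K then (0 : ℂ) else ((r * ((i : ℕ) + 1) : ℝ) : ℂ)) := by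
  ext i k
  rw [mul_apply]
  simp only [conjTranspose_apply, osc]
  by_cases hik : i = k
  · subst hik
    rw [diagonal_apply_eq]
    by_cases hl : i = Fin.last K
    · rw [if_pos hl]
      apply Finset.sum_eq_zero
      intro j _
      have : ¬ ((j : ℕ) = (i : ℕ) + 1) := by
        have := j.2
        rw [hl, Fin.val_last]
        omega
      rw [if_neg this]; simp
    · rw [if_neg hl]
      have hlt : (i : ℕ) + 1 < K + 1 := by
        have h1 := i.2
        have h2 : (i : ℕ) ≠ K := fun h => hl (Fin.ext (by simpa using h))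
        omega
      rw [Finset.sum_eq_single (⟨(i : ℕ) + 1, hlt⟩ : Fin (K + 1))]
      · simp only [if_true, Complex.star_def, Complex.conj_ofReal]
        rw [← Complex.ofReal_mul, Real.mul_self_sqrt (by positivity)]
        push_cast; ring
      · intro b _ hb
        have : ¬ ((b : ℕ) = (i : ℕ) + 1) := fun h => hb (Fin.ext h)
        rw [if_neg this]; simp
      · intro h; exact absurd (Finset.mem_univ _) h
  · rw [diagonal_apply_ne _ hik]
    apply Finset.sum_eq_zero
    intro j _
    by_cases h1 : (j : ℕ) = (i : ℕ) + 1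
    · have : ¬ ((j : ℕ) = (k : ℕ) + 1) := by
        intro h2
        exact hik (Fin.ext (by omega))
      rw [if_neg this]; simp
    · rw [if_neg h1]; simp

lemma conj_mul_osc (r : ℝ) (hr : 0 ≤ r) (K : ℕ) :
    (osc r K)ᴴ * osc r K = diagonal (fun i : Fin (K + 1) => ((r * ((i : ℕ) : ℝ) : ℝ) : ℂ)) := by
  ext i k
  rw [mul_apply]
  simp only [conjTranspose_apply, osc]
  by_cases hik : i = k
  · subst hik
    rw [diagonal_apply_eq]
    by_cases h0 : (i : ℕ) = 0
    · rw [h0]
      simp only [CharP.cast_eq_zero, mul_zero, Complex.ofReal_zero]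
      apply Finset.sum_eq_zero
      intro j _
      rw [if_neg (by omega)]; simp
    · have hlt : (i : ℕ) - 1 < K + 1 := by have := i.2; omega
      rw [Finset.sum_eq_single (⟨(i : ℕ) - 1, hlt⟩ : Fin (K + 1))]
      · rw [if_pos (by show (i : ℕ) = (i : ℕ) - 1 + 1; omega)]
        simp only [Complex.star_def, Complex.conj_ofReal]
        rw [← Complex.ofReal_mul, Real.mul_self_sqrt (by positivity)]
      · intro b _ hb
        have : ¬ ((i : ℕ) = (b : ℕ) + 1) := fun h => hb (Fin.ext (by show (b : ℕ) = (i : ℕ) - 1; omega))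
        rw [if_neg this]; simp
      · intro h; exact absurd (Finset.mem_univ _) h
  · rw [diagonal_apply_ne _ hik]
    apply Finset.sum_eq_zero
    intro j _
    by_cases h1 : (i : ℕ) = (j : ℕ) + 1
    · have : ¬ ((k : ℕ) = (j : ℕ) + 1) := by
        intro h2
        exact hik (Fin.ext (by omega))
      rw [if_neg this]; simp
    · rw [if_neg h1]; simp

lemma osc_comm (r : ℝ) (hr : 0 ≤ r) (K : ℕ) :
    osc r K * (osc r K)ᴴ - (osc r K)ᴴ * osc r K
      = (r : ℂ) • (1 : Matrix (Fin (K + 1)) (Fin (K + 1)) ℂ)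
        - ((r * (K + 1) : ℝ) : ℂ) • top K := by
  rw [osc_mul_conj r hr, conj_mul_osc r hr, top, ← diagonal_one, ← diagonal_smul, ← diagonal_smul,
    diagonal_sub, diagonal_sub]
  congr 1
  funext i
  by_cases h : i = Fin.last K
  · simp [h]; ring
  · simp [h]; ring

lemma top_mul_osc (r : ℝ) (K : ℕ) : top K * osc r K = 0 := by
  ext i k
  rw [top, diagonal_mul]
  by_cases h : i = Fin.last K
  · have : ¬ ((k : ℕ) = (i : ℕ) + 1) := by
      have := k.2
      rw [h, Fin.val_last]; omega
    simp [osc, this]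
  · simp [h]

lemma oscH_mul_top (r : ℝ) (K : ℕ) : (osc r K)ᴴ * top K = 0 := by
  have h := congrArg conjTranspose (top_mul_osc r K)
  rw [conjTranspose_mul, top_conjTranspose] at h
  simpa using h

lemma oscH_osc_top (r : ℝ) (hr : 0 ≤ r) (K : ℕ) :
    (osc r K)ᴴ * osc r K * top K = ((r * K : ℝ) : ℂ) • top K := by
  rw [conj_mul_osc r hr, top, diagonal_mul_diagonal, ← diagonal_smul]
  congr 1
  funext i
  by_cases h : i = Fin.last K
  · simp [h]
  · simp [h]

lemma top_oscH_osc (r : ℝ) (hr : 0 ≤ r) (K : ℕ) :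
    top K * ((osc r K)ᴴ * osc r K) = ((r * K : ℝ) : ℂ) • top K := by
  rw [conj_mul_osc r hr, top, diagonal_mul_diagonal, ← diagonal_smul]
  congr 1
  funext i
  by_cases h : i = Fin.last K
  · simp [h]
  · simp [h]

end Pool.Agent.Work.MP_9fb148_an
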