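import Pool.Agent.Work.MP_9fb148_an.Osc

set_option autoImplicit false

open Matrix
open scoped Kronecker

namespace Pool.Agent.Work.MP_9fb148_an

/-- The data carried through the induction: `d` coordinates, Clifford matrices `G j` (Hermitian,
square one) and `F j` (skew-Hermitian, square minus one), all anticommuting, a projection `Q`
commuting with everything, a grading element `τ` and a Hermitian `B`, with non-zero twisted
supertrace. -/
structure Dat (d : ℕ) (ι : Type) [Fintype ι] [DecidableEq ι] where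
  Q : Matrix ι ι ℂ
  τ : Matrix ι ι ℂ
  B : Matrix ι ι ℂ
  G : Fin d → Matrix ι ι ℂ
  F : Fin d → Matrix ι ι ℂ
  hQ : Qᴴ = Q
  hQQ : Q * Q = Q
  hB : Bᴴ = B
  hG : ∀ j, (G j)ᴴ = G j
  hF : ∀ j, (F j)ᴴ = - F j
  hGG : ∀ j, G j * G j = 1
  hFF : ∀ j, F j * F j = -1
  hGG' : ∀ j k, j ≠ k → G j * G k = -(G k * G j)
  hFF' : ∀ j k, j ≠ k → F j * F k = -(F k * F j)
  hGF : ∀ j k, G j * F k = -(F k * G j)
  hQG : ∀ j, Q * G j = G j * Q
  hQF : ∀ j, Q * F j = F j * Q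
  hQτ : Q * τ = τ * Q
  hQB : Q * B = B * Q
  hτG : ∀ j, τ * G j = -(G j * τ)
  hτF : ∀ j, τ * F j = -(F j * τ)
  hτB : τ * B = -(B * τ)
  hFB : ∀ j, F j * B = -(B * F j)
  htr : (Q * τ * prodW d (fun j => G j * F j)).trace ≠ 0

/-- uniform spectral gap -/
def Dat.Gap {d : ℕ} {ι : Type} [Fintype ι] [DecidableEq ι] (D : Dat d ι) (δ : ℝ) : Prop :=
  ∀ (x : Fin d → ℝ) (v : ι → ℂ), D.Q *ᵥ v = v →
    δ * nsq v ≤ nsq ((D.B - ∑ j, (x j : ℂ) • D.G j) *ᵥ v)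

section ring
variable {R : Type} [Ring R]

lemma anti_pair {G F Z : R} (h1 : G * Z = -(Z * G)) (h2 : F * Z = -(Z * F)) :
    (G * F) * Z = Z * (G * F) := by
  rw [mul_assoc, h2, mul_neg, ← mul_assoc, h1, neg_mul, neg_neg, mul_assoc]

lemma comm_pair {G F Z : R} (h1 : Z * G = G * Z) (h2 : Z * F = F * Z) :
    Z * (G * F) = (G * F) * Z := by
  rw [← mul_assoc, h1, mul_assoc, h2, mul_assoc]

lemma anti_symm {G Z : R} (h1 : G * Z = -(Z * G)) : Z * G = -(G * Z) := by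
  rw [h1, neg_neg]

end ring

/-- the case `d = 0` -/
lemma base {ι : Type} [Fintype ι] [DecidableEq ι] (D : Dat 0 ι) (δ : ℝ) (hδ : 0 < δ)
    (h : D.Gap δ) : False := by
  set C : Matrix ι ι ℂ := D.B * D.Q + (1 - D.Q) with hC
  have hQBQ : D.Q * (D.B * D.Q) = D.B * D.Q := by
    rw [← mul_assoc, D.hQB, mul_assoc, D.hQQ]
  have hQC : D.Q * C = D.B * D.Q := by
    rw [hC, mul_add, mul_sub, mul_one, D.hQQ, sub_self, add_zero, hQBQ]
  have hdet : C.det ≠ 0 := by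
    intro hdet
    obtain ⟨v, hv, hCv⟩ := exists_mulVec_eq_zero_iff.2 hdet
    apply hv
    have h1 : D.B *ᵥ (D.Q *ᵥ v) = 0 := by
      rw [mulVec_mulVec, ← hQC, ← mulVec_mulVec, hCv, mulVec_zero]
    have h2 := h (fun _ => 0) (D.Q *ᵥ v) (by rw [mulVec_mulVec, D.hQQ])
    have h3 : (D.B - ∑ j : Fin 0, ((0 : ℝ) : ℂ) • D.G j) = D.B := by simp
    rw [h3, h1] at h2
    have h4 : nsq (0 : ι → ℂ) = 0 := by simp [nsq]
    have h5 : nsq (D.Q *ᵥ v) = 0 := by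
      have := nsq_nonneg (D.Q *ᵥ v)
      nlinarith
    have h6 := nsq_eq_zero h5
    have h7 : C *ᵥ v = v := by
      rw [hC, add_mulVec, sub_mulVec, ← mulVec_mulVec, h6, mulVec_zero, one_mulVec, sub_zero,
        zero_add]
    rw [← h7, hCv]
  have hCT : C * (D.Q * D.τ) = -((D.Q * D.τ) * C) := by
    have e1 : C * (D.Q * D.τ) = D.B * D.Q * D.τ := by
      rw [hC, add_mul, sub_mul, one_mul, ← mul_assoc (D.B * D.Q), mul_assoc D.B, D.hQQ,
        ← mul_assoc D.Q, D.hQQ, sub_self, add_zero]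
    have e2 : (D.Q * D.τ) * C = -(D.B * D.Q * D.τ) := by
      have e3 : D.Q * D.τ * D.Q = D.Q * D.τ := by
        rw [mul_assoc, ← D.hQτ, ← mul_assoc, D.hQQ]
      rw [hC, mul_add, mul_sub, mul_one, e3, sub_self, add_zero, ← mul_assoc, mul_assoc D.Q,
        D.hτB, mul_neg, neg_mul, ← mul_assoc, D.hQB, mul_assoc, mul_assoc, mul_assoc, ← D.hQτ,
        ← mul_assoc D.Q, D.hQQ]
    rw [e1, e2, neg_neg]
  have hunit : IsUnit C.det := isUnit_iff_ne_zero.2 hdet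
  have htr0 : (D.Q * D.τ).trace = 0 := by
    have e1 : (D.Q * D.τ).trace = (C⁻¹ * (C * (D.Q * D.τ))).trace := by
      rw [← mul_assoc, nonsing_inv_mul _ hunit, one_mul]
    have e2 : (C⁻¹ * (C * (D.Q * D.τ))).trace = -(D.Q * D.τ).trace := by
      rw [hCT, mul_neg, trace_neg, trace_mul_comm, mul_assoc, mul_nonsing_inv _ hunit, mul_one]
    have e3 : (D.Q * D.τ).trace = -(D.Q * D.τ).trace := e1.trans e2
    exact self_eq_neg.1 e3
  apply D.htr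
  simpa [prodW] using htr0

section step

variable {d : ℕ} {ι : Type} [Fintype ι] [DecidableEq ι] (D : Dat (d + 1) ι)

/-- mode parity -/
def Dat.w : Matrix ι ι ℂ := D.G 0 * D.F 0

/-- mode number operator -/
noncomputable def Dat.n : Matrix ι ι ℂ := (1 / 2 : ℂ) • (1 + D.w)

noncomputable def Dat.c : Matrix ι ι ℂ := (1 / 2 : ℂ) • (D.G 0 + D.F 0)

noncomputable def Dat.cs : Matrix ι ι ℂ := (1 / 2 : ℂ) • (D.G 0 - D.F 0)

lemma Dat.FG0 : D.F 0 * D.G 0 = - D.w := by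
  unfold Dat.w
  rw [D.hGF 0 0, neg_neg]

lemma Dat.w_herm : (D.w)ᴴ = D.w := by
  unfold Dat.w
  rw [conjTranspose_mul, D.hG, D.hF, neg_mul, D.hGF 0 0]

lemma Dat.n_herm : (D.n)ᴴ = D.n := by
  unfold Dat.n
  rw [conjTranspose_smul, conjTranspose_add, D.w_herm, conjTranspose_one]
  simp

lemma Dat.c_star : (D.c)ᴴ = D.cs := by
  unfold Dat.c Dat.cs
  rw [conjTranspose_smul, conjTranspose_add, D.hG, D.hF]
  simp [sub_eq_add_neg]

lemma Dat.cs_star : (D.cs)ᴴ = D.c := by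
  rw [← D.c_star, conjTranspose_conjTranspose]

lemma Dat.w_sq : D.w * D.w = 1 := by
  have : D.w * D.w = D.G 0 * (D.F 0 * D.G 0) * D.F 0 := by
    unfold Dat.w; simp only [mul_assoc]
  rw [this, D.FG0]
  unfold Dat.w
  rw [mul_neg, neg_mul, ← mul_assoc (D.G 0), D.hGG, one_mul, D.hFF, neg_neg]

lemma Dat.cs_c : D.cs * D.c = D.n := by
  unfold Dat.cs Dat.c Dat.n
  rw [smul_mul_smul_comm, sub_mul, mul_add, mul_add, D.hGG, D.hFF, D.FG0]
  have : D.G 0 * D.F 0 = D.w := rfl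
  rw [this]
  module

lemma Dat.c_cs : D.c * D.cs = 1 - D.n := by
  unfold Dat.cs Dat.c Dat.n
  rw [smul_mul_smul_comm, add_mul, mul_sub, mul_sub, D.hGG, D.hFF, D.FG0]
  have : D.G 0 * D.F 0 = D.w := rfl
  rw [this]
  module

lemma Dat.c_c : D.c * D.c = 0 := by
  unfold Dat.c
  rw [smul_mul_smul_comm, add_mul, mul_add, mul_add, D.hGG, D.hFF, D.FG0]
  have : D.G 0 * D.F 0 = D.w := rfl
  rw [this]
  module

lemma Dat.cs_cs : D.cs * D.cs = 0 := by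
  unfold Dat.cs
  rw [smul_mul_smul_comm, sub_mul, mul_sub, mul_sub, D.hGG, D.hFF, D.FG0]
  have : D.G 0 * D.F 0 = D.w := rfl
  rw [this]
  module

lemma Dat.n_n : D.n * D.n = D.n := by
  unfold Dat.n
  rw [smul_mul_smul_comm, add_mul, mul_add, mul_add, D.w_sq]
  simp only [one_mul, mul_one]
  module

lemma Dat.n_c : D.n * D.c = 0 := by rw [← D.cs_c, mul_assoc, D.c_c, mul_zero]

lemma Dat.cs_n : D.cs * D.n = 0 := by rw [← D.cs_c, ← mul_assoc, D.cs_cs, zero_mul]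

lemma Dat.c_n : D.c * D.n = D.c := by
  have := D.c_cs
  calc D.c * D.n = D.c * D.cs * D.c := by rw [← D.cs_c, mul_assoc]
    _ = D.c - D.n * D.c := by rw [this, sub_mul, one_mul]
    _ = D.c := by rw [D.n_c, sub_zero]

lemma Dat.n_cs : D.n * D.cs = D.cs := by
  calc D.n * D.cs = D.cs * (D.c * D.cs) := by rw [← D.cs_c, mul_assoc]
    _ = D.cs - D.cs * D.n := by rw [D.c_cs, mul_sub, mul_one]
    _ = D.cs := by rw [D.cs_n, sub_zero]

lemma Dat.Qw : D.Q * D.w = D.w * D.Q := comm_pair (D.hQG 0) (D.hQF 0)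

lemma Dat.τw : D.τ * D.w = D.w * D.τ :=
  (anti_pair (anti_symm (D.hτG 0)) (anti_symm (D.hτF 0))).symm

lemma Dat.Gw (j : Fin d) : D.G j.succ * D.w = D.w * D.G j.succ :=
  (anti_pair (D.hGG' 0 j.succ (Fin.succ_ne_zero j).symm)
    (anti_symm (D.hGF j.succ 0))).symm

lemma Dat.Fw (j : Fin d) : D.F j.succ * D.w = D.w * D.F j.succ :=
  (anti_pair (D.hGF 0 j.succ) (D.hFF' 0 j.succ (Fin.succ_ne_zero j).symm)).symm

lemma comm_n {Z : Matrix ι ι ℂ} (h : Z * D.w = D.w * Z) : Z * D.n = D.n * Z := by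
  unfold Dat.n
  rw [mul_smul_comm, smul_mul_assoc, mul_add, add_mul, h, mul_one, one_mul]

lemma Dat.Qn : D.Q * D.n = D.n * D.Q := comm_n D D.Qw
lemma Dat.τn : D.τ * D.n = D.n * D.τ := comm_n D D.τw
lemma Dat.Gn (j : Fin d) : D.G j.succ * D.n = D.n * D.G j.succ := comm_n D (D.Gw j)
lemma Dat.Fn (j : Fin d) : D.F j.succ * D.n = D.n * D.F j.succ := comm_n D (D.Fw j)

variable (r : ℝ) (K : ℕ)

/-- the new projection -/
noncomputable def Dat.Q' : Matrix (ι × Fin (K + 1)) (ι × Fin (K + 1)) ℂ :=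
  D.Q ⊗ₖ (1 : Matrix (Fin (K + 1)) (Fin (K + 1)) ℂ) - (D.Q * D.n) ⊗ₖ top K

/-- the oscillator part -/
noncomputable def Dat.D0 : Matrix (ι × Fin (K + 1)) (ι × Fin (K + 1)) ℂ :=
  -(D.G 0 ⊗ₖ (osc r K + (osc r K)ᴴ)) + D.F 0 ⊗ₖ (osc r K - (osc r K)ᴴ)

lemma Dat.D0_eq : D.D0 r K = -((2 : ℂ) • (D.cs ⊗ₖ osc r K)) - (2 : ℂ) • (D.c ⊗ₖ (osc r K)ᴴ) := by
  have hG : D.G 0 = D.c + D.cs := by unfold Dat.c Dat.cs; module
  have hF : D.F 0 = D.c - D.cs := by unfold Dat.c Dat.cs; module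
  unfold Dat.D0
  rw [hG, hF, kronecker_add, kron_sub, add_kronecker, add_kronecker, sub_kron,
    sub_kron]
  module

lemma Dat.Q'_herm : (D.Q' K)ᴴ = D.Q' K := by
  unfold Dat.Q'
  rw [conjTranspose_sub, conjTranspose_kronecker, conjTranspose_kronecker, conjTranspose_one,
    conjTranspose_mul, D.n_herm, D.hQ, top_conjTranspose, D.Qn]

lemma Dat.Qn_Qn : D.Q * D.n * (D.Q * D.n) = D.Q * D.n := by
  rw [← mul_assoc, mul_assoc D.Q, ← D.Qn, ← mul_assoc D.Q, D.hQQ, mul_assoc, D.n_n]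

lemma Dat.Q'_Q' : D.Q' K * D.Q' K = D.Q' K := by
  unfold Dat.Q'
  rw [sub_mul, mul_sub, mul_sub, ← mul_kronecker_mul, ← mul_kronecker_mul, ← mul_kronecker_mul,
    ← mul_kronecker_mul, D.hQQ, one_mul, one_mul, mul_one, top_mul_top, D.Qn_Qn]
  have h1 : D.Q * (D.Q * D.n) = D.Q * D.n := by rw [← mul_assoc, D.hQQ]
  have h2 : D.Q * D.n * D.Q = D.Q * D.n := by rw [mul_assoc, ← D.Qn, ← mul_assoc, D.hQQ]
  rw [h1, h2]
  abel

/-- anything commuting with `Q` and `n` commutes with `Q'` after tensoring with `1` -/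
lemma Dat.Q'_comm {Z : Matrix ι ι ℂ} (h1 : D.Q * Z = Z * D.Q) (h2 : Z * D.n = D.n * Z) :
    D.Q' K * (Z ⊗ₖ (1 : Matrix (Fin (K + 1)) (Fin (K + 1)) ℂ))
      = (Z ⊗ₖ (1 : Matrix (Fin (K + 1)) (Fin (K + 1)) ℂ)) * D.Q' K := by
  unfold Dat.Q'
  rw [sub_mul, mul_sub, ← mul_kronecker_mul, ← mul_kronecker_mul, ← mul_kronecker_mul,
    ← mul_kronecker_mul, one_mul, one_mul, mul_one, h1, mul_assoc, ← h2, ← mul_assoc, h1, mul_assoc]

lemma Dat.Q_cs : D.Q * D.cs = D.cs * D.Q := by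
  unfold Dat.cs
  rw [mul_smul_comm, smul_mul_assoc, mul_sub, sub_mul, D.hQG, D.hQF]

lemma Dat.Q_c : D.Q * D.c = D.c * D.Q := by
  unfold Dat.c
  rw [mul_smul_comm, smul_mul_assoc, mul_add, add_mul, D.hQG, D.hQF]

lemma Dat.Q'_D0 : D.Q' K * D.D0 r K = D.D0 r K * D.Q' K := by
  rw [D.D0_eq]
  have e1 : ((D.Q * D.n) ⊗ₖ top K) * (D.cs ⊗ₖ osc r K) = 0 := by
    rw [← mul_kronecker_mul, top_mul_osc, kronecker_zero]
  have e2 : ((D.Q * D.n) ⊗ₖ top K) * (D.c ⊗ₖ (osc r K)ᴴ) = 0 := by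
    rw [← mul_kronecker_mul, mul_assoc, D.n_c, mul_zero, zero_kronecker]
  have e3 : (D.cs ⊗ₖ osc r K) * ((D.Q * D.n) ⊗ₖ top K) = 0 := by
    rw [← mul_kronecker_mul, D.Qn, ← mul_assoc, D.cs_n, zero_mul, zero_kronecker]
  have e4 : (D.c ⊗ₖ (osc r K)ᴴ) * ((D.Q * D.n) ⊗ₖ top K) = 0 := by
    rw [← mul_kronecker_mul, oscH_mul_top, kronecker_zero]
  have e5 : (D.Q ⊗ₖ (1 : Matrix (Fin (K + 1)) (Fin (K + 1)) ℂ)) * (D.cs ⊗ₖ osc r K)
      = (D.cs ⊗ₖ osc r K) * (D.Q ⊗ₖ (1 : Matrix (Fin (K + 1)) (Fin (K + 1)) ℂ)) := by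
    rw [← mul_kronecker_mul, ← mul_kronecker_mul, one_mul, mul_one, D.Q_cs]
  have e6 : (D.Q ⊗ₖ (1 : Matrix (Fin (K + 1)) (Fin (K + 1)) ℂ)) * (D.c ⊗ₖ (osc r K)ᴴ)
      = (D.c ⊗ₖ (osc r K)ᴴ) * (D.Q ⊗ₖ (1 : Matrix (Fin (K + 1)) (Fin (K + 1)) ℂ)) := by
    rw [← mul_kronecker_mul, ← mul_kronecker_mul, one_mul, mul_one, D.Q_c]
  unfold Dat.Q'
  simp only [sub_mul, mul_sub, mul_neg, neg_mul, mul_smul_comm, smul_mul_assoc, e1, e2, e3, e4,
    e5, e6]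
  simp

lemma Dat.D0_herm : (D.D0 r K)ᴴ = D.D0 r K := by
  unfold Dat.D0
  rw [conjTranspose_add, conjTranspose_neg, conjTranspose_kronecker, conjTranspose_kronecker,
    D.hG, D.hF, conjTranspose_add, conjTranspose_sub, conjTranspose_conjTranspose, neg_kron,
    add_comm (osc r K)ᴴ, ← kron_neg (D.F 0), neg_sub]

/-- something anticommuting with `G 0` and `F 0` anticommutes with `D0` -/
lemma Dat.D0_anti {Z : Matrix ι ι ℂ} (h1 : Z * D.G 0 = -(D.G 0 * Z))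
    (h2 : Z * D.F 0 = -(D.F 0 * Z)) :
    (Z ⊗ₖ (1 : Matrix (Fin (K + 1)) (Fin (K + 1)) ℂ)) * D.D0 r K
      = -(D.D0 r K * (Z ⊗ₖ (1 : Matrix (Fin (K + 1)) (Fin (K + 1)) ℂ))) := by
  unfold Dat.D0
  rw [mul_add, add_mul, mul_neg, neg_mul, ← mul_kronecker_mul, ← mul_kronecker_mul,
    ← mul_kronecker_mul, ← mul_kronecker_mul, h1, h2, one_mul, one_mul, mul_one, mul_one,
    neg_kron, neg_kron]
  abel

/-- the new potential -/
noncomputable def Dat.B' : Matrix (ι × Fin (K + 1)) (ι × Fin (K + 1)) ℂ :=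
  D.Q' K * (D.B ⊗ₖ (1 : Matrix (Fin (K + 1)) (Fin (K + 1)) ℂ)) * D.Q' K + D.D0 r K

lemma kron_anti {A B : Matrix ι ι ℂ} (h : A * B = -(B * A)) :
    (A ⊗ₖ (1 : Matrix (Fin (K + 1)) (Fin (K + 1)) ℂ)) * (B ⊗ₖ (1 : Matrix (Fin (K + 1)) (Fin (K + 1)) ℂ))
     = -((B ⊗ₖ (1 : Matrix (Fin (K + 1)) (Fin (K + 1)) ℂ)) * (A ⊗ₖ (1 : Matrix (Fin (K + 1)) (Fin (K + 1)) ℂ))) := by
  rw [← mul_kronecker_mul, ← mul_kronecker_mul, h, neg_kron]

lemma Dat.B'_anti {Z : Matrix ι ι ℂ} (h1 : Z * D.G 0 = -(D.G 0 * Z))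
    (h2 : Z * D.F 0 = -(D.F 0 * Z)) (h3 : Z * D.B = -(D.B * Z)) (h4 : D.Q * Z = Z * D.Q)
    (h5 : Z * D.n = D.n * Z) :
    (Z ⊗ₖ (1 : Matrix (Fin (K + 1)) (Fin (K + 1)) ℂ)) * D.B' r K
      = -(D.B' r K * (Z ⊗ₖ (1 : Matrix (Fin (K + 1)) (Fin (K + 1)) ℂ))) := by
  unfold Dat.B'
  rw [mul_add, add_mul, D.D0_anti r K h1 h2, neg_add]
  congr 1
  rw [← mul_assoc, ← mul_assoc, ← D.Q'_comm K h4 h5, mul_assoc (D.Q' K), kron_anti K h3,
    mul_neg, neg_mul, ← mul_assoc, mul_assoc _ _ (D.Q' K), ← D.Q'_comm K h4 h5, ← mul_assoc]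

lemma trace_zero_of_anti {G T : Matrix ι ι ℂ} (h1 : G * G = 1) (h2 : G * T = -(T * G)) :
    T.trace = 0 := by
  have e1 : T.trace = (G * (G * T)).trace := by rw [← mul_assoc, h1, one_mul]
  have e2 : (G * (G * T)).trace = -T.trace := by
    rw [h2, mul_neg, trace_neg, trace_mul_comm, mul_assoc, h1, mul_one]
  exact self_eq_neg.1 (e1.trans e2)

/-- the data after eliminating one coordinate -/
noncomputable def Dat.next : Dat d (ι × Fin (K + 1)) where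
  Q := D.Q' K
  τ := D.τ ⊗ₖ (1 : Matrix (Fin (K + 1)) (Fin (K + 1)) ℂ)
  B := D.B' r K
  G := fun j => D.G j.succ ⊗ₖ (1 : Matrix (Fin (K + 1)) (Fin (K + 1)) ℂ)
  F := fun j => D.F j.succ ⊗ₖ (1 : Matrix (Fin (K + 1)) (Fin (K + 1)) ℂ)
  hQ := D.Q'_herm K
  hQQ := D.Q'_Q' K
  hB := by
    unfold Dat.B'
    rw [conjTranspose_add, D.D0_herm, conjTranspose_mul, conjTranspose_mul, D.Q'_herm,
      conjTranspose_kronecker, D.hB, conjTranspose_one, mul_assoc]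
  hG := fun j => by rw [conjTranspose_kronecker, D.hG, conjTranspose_one]
  hF := fun j => by rw [conjTranspose_kronecker, D.hF, conjTranspose_one, neg_kron]
  hGG := fun j => by rw [← mul_kronecker_mul, D.hGG, mul_one, one_kronecker_one]
  hFF := fun j => by rw [← mul_kronecker_mul, D.hFF, mul_one, neg_kron, one_kronecker_one]
  hGG' := fun j k h => kron_anti K (D.hGG' _ _ (fun h' => h (Fin.succ_injective _ h')))
  hFF' := fun j k h => kron_anti K (D.hFF' _ _ (fun h' => h (Fin.succ_injective _ h')))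
  hGF := fun j k => kron_anti K (D.hGF _ _)
  hQG := fun j => D.Q'_comm K (D.hQG _) (D.Gn j)
  hQF := fun j => D.Q'_comm K (D.hQF _) (D.Fn j)
  hQτ := D.Q'_comm K D.hQτ D.τn
  hQB := by
    unfold Dat.B'
    rw [mul_add, add_mul, D.Q'_D0, ← mul_assoc, ← mul_assoc, D.Q'_Q', mul_assoc _ (D.Q' K),
      D.Q'_Q']
  hτG := fun j => kron_anti K (D.hτG _)
  hτF := fun j => kron_anti K (D.hτF _)
  hτB := D.B'_anti r K (D.hτG 0) (D.hτF 0) D.hτB D.hQτ D.τn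
  hFB := fun j => D.B'_anti r K (anti_symm (D.hGF 0 j.succ))
    (D.hFF' j.succ 0 (Fin.succ_ne_zero j)) (D.hFB j.succ) (D.hQF j.succ) (D.Fn j)
  htr := by
    have hP : prodW d (fun j => D.G j.succ ⊗ₖ (1 : Matrix (Fin (K + 1)) (Fin (K + 1)) ℂ)
        * D.F j.succ ⊗ₖ (1 : Matrix (Fin (K + 1)) (Fin (K + 1)) ℂ))
        = prodW d (fun j => D.G j.succ * D.F j.succ)
          ⊗ₖ (1 : Matrix (Fin (K + 1)) (Fin (K + 1)) ℂ) := by
      rw [← prodW_kron]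
      congr 1
      funext j
      rw [← mul_kronecker_mul, mul_one]
    rw [hP]
    set P := prodW d (fun j => D.G j.succ * D.F j.succ) with hPdef
    have hGP : D.G 0 * P = P * D.G 0 := by
      apply prodW_comm
      intro j
      exact (anti_pair (D.hGG' j.succ 0 (Fin.succ_ne_zero j))
        (anti_symm (D.hGF 0 j.succ))).symm
    have h0 : (D.Q * D.τ * P).trace = 0 := by
      apply trace_zero_of_anti (D.hGG 0)
      rw [← mul_assoc, ← mul_assoc, ← D.hQG, mul_assoc D.Q, anti_symm (D.hτG 0), mul_neg, neg_mul,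
        ← mul_assoc D.Q, mul_assoc _ (D.G 0) P, hGP, ← mul_assoc]
    have h1 : (D.Q * D.n * D.τ * P).trace = (1 / 2 : ℂ) * (D.Q * D.τ * (D.w * P)).trace := by
      have : D.Q * D.n * D.τ * P
          = (1 / 2 : ℂ) • (D.Q * D.τ * P) + (1 / 2 : ℂ) • (D.Q * D.τ * (D.w * P)) := by
        unfold Dat.n
        rw [mul_smul_comm, smul_mul_assoc, smul_mul_assoc, mul_add, add_mul, add_mul, mul_one,
          smul_add, mul_assoc D.Q D.w, ← D.τw]
        simp only [mul_assoc]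
      rw [this, trace_add, trace_smul, trace_smul, h0, smul_zero, zero_add, smul_eq_mul]
    have h2 : (D.Q' K * (D.τ ⊗ₖ (1 : Matrix (Fin (K + 1)) (Fin (K + 1)) ℂ))
        * (P ⊗ₖ (1 : Matrix (Fin (K + 1)) (Fin (K + 1)) ℂ))).trace
        = -((1 / 2 : ℂ) * (D.Q * D.τ * (D.w * P)).trace) := by
      unfold Dat.Q'
      rw [sub_mul, sub_mul, ← mul_kronecker_mul, ← mul_kronecker_mul, ← mul_kronecker_mul,
        ← mul_kronecker_mul, trace_sub, trace_kronecker, trace_kronecker, h0, zero_mul, zero_sub,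
        mul_one, mul_one, top_trace, mul_one, h1]
    rw [h2]
    have h3 := D.htr
    have h4 : prodW (d + 1) (fun j => D.G j * D.F j) = D.w * P := rfl
    rw [h4] at h3
    intro h5
    apply h3
    have h6 : (1 / 2 : ℂ) * (D.Q * D.τ * (D.w * P)).trace = 0 := neg_eq_zero.1 h5
    have h7 : (1 / 2 : ℂ) ≠ 0 := by norm_num
    exact (mul_eq_zero.1 h6).resolve_left h7

end step

end Pool.Agent.Work.MP_9fb148_an
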